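import Mathlib

open Finset Classical

namespace X146FD

variable {V : Type*} [Fintype V] (G : SimpleGraph V)

/-- The neighbours of a vertex. -/
noncomputable def nb (x : V) : Finset V := univ.filter (fun y => G.Adj x y)

lemma mem_nb {x y : V} : y ∈ nb G x ↔ G.Adj x y := by simp [nb]

/-- The vertices of degree more than `D`. -/
noncomputable def hub (D : ℕ) : Finset V := univ.filter (fun v => D < (nb G v).card)

lemma mem_hub {D : ℕ} {x : V} : x ∈ hub G D ↔ D < (nb G x).card := by simp [hub]

/-- Vertices reached from `x` in at most `i` steps through non-hubs, avoiding `S`. -/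
noncomputable def loc (D : ℕ) (S : Finset V) (x : V) : ℕ → Finset V
  | 0 => {x}
  | (i+1) => loc D S x i ∪ (((loc D S x i) \ hub G D).biUnion (nb G)) \ S

lemma loc_succ (D : ℕ) (S : Finset V) (x : V) (i : ℕ) :
    loc G D S x (i+1) = loc G D S x i ∪ (((loc G D S x i) \ hub G D).biUnion (nb G)) \ S := rfl

lemma loc_mono_succ (D : ℕ) (S : Finset V) (x : V) (i : ℕ) :
    loc G D S x i ⊆ loc G D S x (i+1) := by
  rw [loc_succ]; exact subset_union_left

lemma loc_mono (D : ℕ) (S : Finset V) (x : V) {i j : ℕ} (h : i ≤ j) :
    loc G D S x i ⊆ loc G D S x j := by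
  induction h with
  | refl => exact fun _ h => h
  | step _ ih => exact ih.trans (loc_mono_succ G D S x _)

lemma loc_card (D : ℕ) (S : Finset V) (x : V) (i : ℕ) :
    (loc G D S x i).card ≤ (D+1)^i := by
  induction i with
  | zero => simp [loc]
  | succ i ih =>
    rw [loc_succ]
    have h1 : (((loc G D S x i) \ hub G D).biUnion (nb G) \ S).card ≤ (loc G D S x i).card * D := by
      refine (card_le_card sdiff_subset).trans ?_
      refine (card_biUnion_le_card_mul _ _ D ?_).trans (Nat.mul_le_mul_right _ (card_le_card sdiff_subset))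
      intro a ha
      have := (mem_sdiff.1 ha).2
      rw [mem_hub] at this
      omega
    refine (card_union_le _ _).trans ?_
    calc _ ≤ (loc G D S x i).card + (loc G D S x i).card * D := by omega
      _ = (loc G D S x i).card * (D+1) := by ring
      _ ≤ (D+1)^i * (D+1) := Nat.mul_le_mul_right _ ih
      _ = (D+1)^(i+1) := by ring

lemma loc_avoid (D : ℕ) (S : Finset V) (x : V) (i : ℕ) {z : V} (hz : z ∈ loc G D S x i) :
    z = x ∨ z ∉ S := by
  induction i with
  | zero => simp [loc] at hz; exact Or.inl hz
  | succ i ih =>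
    rw [loc_succ, mem_union] at hz
    rcases hz with hz | hz
    · exact ih hz
    · exact Or.inr (mem_sdiff.1 hz).2

lemma loc_step (D : ℕ) (S : Finset V) (x : V) (i : ℕ) {u z : V} (hu : u ∈ loc G D S x i)
    (hu2 : u ∉ hub G D) (huz : G.Adj u z) (hz : z ∉ S) : z ∈ loc G D S x (i+1) := by
  rw [loc_succ, mem_union]
  right
  rw [mem_sdiff, mem_biUnion]
  exact ⟨⟨u, mem_sdiff.2 ⟨hu, hu2⟩, (mem_nb G).2 huz⟩, hz⟩

/-- `v` is reached from `u` by at most `m` steps, each ending outside `S`. -/
def R (S : Finset V) : ℕ → V → V → Prop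
  | 0, u, v => u = v
  | (m+1), u, v => u = v ∨ ∃ z, G.Adj u z ∧ z ∉ S ∧ R S m z v

omit [Fintype V] in
lemma R_mono (S : Finset V) {m n : ℕ} (h : m ≤ n) {u v : V} (hR : R G S m u v) : R G S n u v := by
  induction m generalizing n u with
  | zero =>
    cases n with
    | zero => exact hR
    | succ n => exact Or.inl hR
  | succ m ih =>
    obtain ⟨n, rfl⟩ : ∃ n', n = n' + 1 := ⟨n-1, by omega⟩
    rcases hR with hR | ⟨z, h1, h2, h3⟩
    · exact Or.inl hR
    · exact Or.inr ⟨z, h1, h2, ih (by omega) h3⟩

omit [Fintype V] in
lemma R_of_walk (S : Finset V) {a b : {x : V | x ∉ S}} (w : (G.induce {x : V | x ∉ S}).Walk a b) :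
    R G S w.length a b := by
  induction w with
  | nil => simp [R]
  | @cons u v w h p ih =>
    rw [SimpleGraph.Walk.length_cons]
    exact Or.inr ⟨v.1, h, v.2, ih⟩

lemma decomp (D r : ℕ) (S : Finset V) (x y : V) (hx : ∀ h ∈ loc G D S x r, h ∉ hub G D)
    (hy : y ∉ hub G D) (m i : ℕ) (u : V) (hu : u ∈ loc G D S x i) (hu2 : u ∉ hub G D)
    (hR : R G S m u y) (him : i + m ≤ r + 2) :
    y ∈ loc G D S x (r+2) ∨ ∃ h ∈ hub G D, h ∈ loc G D S x (r+1) ∧ G.Adj h y := by
  induction m generalizing i u with
  | zero =>
    simp only [R] at hR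
    subst hR
    exact Or.inl (loc_mono G D S x (by omega) hu)
  | succ m ih =>
    rcases hR with hR | ⟨z, h1, h2, h3⟩
    · subst hR
      exact Or.inl (loc_mono G D S x (by omega) hu)
    · have hz : z ∈ loc G D S x (i+1) := loc_step G D S x i hu hu2 h1 h2
      by_cases hzh : z ∈ hub G D
      · right
        have hir : r ≤ i := by
          by_contra hlt
          exact hx z (loc_mono G D S x (by omega) hz) hzh
        have hm : m ≤ 1 := by omega
        have hzy : z ≠ y := fun h => hy (h ▸ hzh)
        have hm1 : m = 1 := by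
          rcases Nat.lt_or_ge m 1 with h | h
          · exfalso
            have : m = 0 := by omega
            subst this
            exact hzy h3
          · omega
        subst hm1
        rcases h3 with h3 | ⟨z', h4, h5, h6⟩
        · exact absurd h3 hzy
        · simp only [R] at h6
          subst h6
          exact ⟨z, hzh, loc_mono G D S x (by omega) hz, h4⟩
      · exact ih (i+1) z hz hzh h3 (by omega)

/-- `S` is a set of fewer than `k` vertices which cuts `x` from all hubs within `r` steps. -/
def Cuts (D k r : ℕ) (x : V) (S : Finset V) : Prop :=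
  x ∉ hub G D ∧ x ∉ S ∧ S.card < k ∧ ∀ h ∈ loc G D S x r, h ∉ hub G D

def IsBad (D k r : ℕ) (x : V) : Prop := ∃ S, Cuts G D k r x S

noncomputable def sel (D k r : ℕ) (x : V) : Finset V :=
  if h : IsBad G D k r x then h.choose else ∅

lemma sel_spec {D k r : ℕ} {x : V} (h : IsBad G D k r x) : Cuts G D k r x (sel G D k r x) := by
  unfold sel
  rw [dif_pos h]
  exact h.choose_spec

noncomputable def badT (D k r : ℕ) (T : Finset V) : Finset V :=
  univ.filter (fun y => IsBad G D k r y ∧ T ⊆ sel G D k r y)

/-- The bound for the number of bad vertices. -/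
def Cst (D k r : ℕ) : ℕ → ℕ
  | 0 => 0
  | (m+1) => k + (D+1)^(r+2) + (D+1)^(r+1) * Cst D k r m

lemma bad_card (D k r : ℕ) (hr : 1 ≤ r)
    (hG : ∀ S : Finset V, S.card < k → ∀ u v, u ∉ S → v ∉ S → R G S (r+2) u v) :
    ∀ m (T : Finset V), k ≤ T.card + m → (badT G D k r T).card ≤ Cst D k r m := by
  intro m
  induction m with
  | zero =>
    intro T hT
    have : badT G D k r T = ∅ := by
      rw [eq_empty_iff_forall_notMem]
      intro y hy
      rw [badT, mem_filter] at hy
      have h1 := (sel_spec G hy.2.1).2.2.1
      have h2 := card_le_card hy.2.2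
      omega
    rw [this]; simp
  | succ m ih =>
    intro T hT
    rcases (badT G D k r T).eq_empty_or_nonempty with he | ⟨x, hx⟩
    · rw [he]; simp
    · have hx' := hx
      rw [badT, mem_filter] at hx'
      obtain ⟨-, hxb, hxT⟩ := hx'
      have hc := sel_spec G hxb
      set S := sel G D k r x with hS
      have hsub : badT G D k r T ⊆ S ∪ loc G D S x (r+2) ∪
          ((loc G D S x (r+1)) \ T).biUnion (fun h => badT G D k r (insert h T)) := by
        intro y hy
        have hy' := hy
        rw [badT, mem_filter] at hy'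
        obtain ⟨-, hyb, hyT⟩ := hy'
        have hcy := sel_spec G hyb
        by_cases hyS : y ∈ S
        · exact mem_union_left _ (mem_union_left _ hyS)
        · have hR := hG S hc.2.2.1 x y hc.2.1 hyS
          rcases decomp G D r S x y hc.2.2.2 hcy.1 (r+2) 0 x (by simp [loc]) hc.1 hR (by omega) with
            h | ⟨h, h1, h2, h3⟩
          · exact mem_union_left _ (mem_union_right _ h)
          · refine mem_union_right _ (mem_biUnion.2 ⟨h, mem_sdiff.2 ⟨h2, ?_⟩, ?_⟩)
            · intro hT'
              rcases loc_avoid G D S x (r+1) h2 with h4 | h4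
              · exact hc.1 (h4 ▸ h1)
              · exact h4 (hxT hT')
            · rw [badT, mem_filter]
              refine ⟨mem_univ _, hyb, ?_⟩
              intro t ht
              rcases mem_insert.1 ht with rfl | ht
              · by_contra hns
                have h5 : t ∈ loc G D (sel G D k r y) y (0+1) :=
                  loc_step G D _ y 0 (by simp [loc]) hcy.1 h3.symm hns
                exact hcy.2.2.2 t (loc_mono G D _ y (by omega) h5) h1
              · exact hyT ht
      refine (card_le_card hsub).trans ?_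
      refine (card_union_le _ _).trans ?_
      have h1 : (S ∪ loc G D S x (r+2)).card ≤ k + (D+1)^(r+2) :=
        (card_union_le _ _).trans (Nat.add_le_add hc.2.2.1.le (loc_card G D S x _))
      have h2 : (((loc G D S x (r+1)) \ T).biUnion (fun h => badT G D k r (insert h T))).card
          ≤ (D+1)^(r+1) * Cst D k r m := by
        refine (card_biUnion_le_card_mul _ _ (Cst D k r m) ?_).trans
          (Nat.mul_le_mul_right _ ((card_le_card sdiff_subset).trans (loc_card G D S x _)))
        intro h hh
        apply ih
        rw [card_insert_of_notMem (mem_sdiff.1 hh).2]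
        omega
      calc _ ≤ (k + (D+1)^(r+2)) + (D+1)^(r+1) * Cst D k r m := Nat.add_le_add h1 h2
        _ = Cst D k r (m+1) := by simp [Cst]

end X146FD
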