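import Pool.Agent.X146.FD.Core

open Finset Classical

namespace X146FD

variable {V : Type*} [Fintype V] (G : SimpleGraph V)

/-- The sum of the degrees. -/
noncomputable def ds : ℕ := ∑ v, (nb G v).card

lemma ds_eq : ds G = 2 * G.edgeSet.ncard := by
  have h := G.sum_degrees_eq_twice_card_edges
  have h2 : G.edgeSet.ncard = G.edgeFinset.card := by
    rw [← SimpleGraph.coe_edgeFinset, Set.ncard_coe_finset]
  rw [h2, ← h]
  unfold ds
  refine sum_congr rfl fun v _ => ?_
  rw [← SimpleGraph.card_neighborFinset_eq_degree]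
  congr 1
  ext y
  simp [nb]

lemma dc (A B : Finset V) :
    ∑ x ∈ A, (nb G x ∩ B).card = ∑ y ∈ B, (nb G y ∩ A).card := by
  have h : ∀ (x : V) (B : Finset V), (nb G x ∩ B).card = ∑ y ∈ B, if G.Adj x y then 1 else 0 := by
    intro x B
    rw [← card_filter]
    congr 1
    ext y
    simp [nb, and_comm]
  simp_rw [h]
  rw [sum_comm]
  refine sum_congr rfl fun y _ => sum_congr rfl fun x _ => ?_
  simp [G.adj_comm]

lemma hub_card (D : ℕ) : (D+1) * (hub G D).card ≤ ds G := by
  unfold ds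
  calc (D+1) * (hub G D).card = ∑ _v ∈ hub G D, (D+1) := by simp [mul_comm]
    _ ≤ ∑ v ∈ hub G D, (nb G v).card :=
        sum_le_sum fun v hv => by rw [mem_hub] at hv; omega
    _ ≤ ∑ v, (nb G v).card := sum_le_sum_of_subset (subset_univ _)

lemma loc_one {D : ℕ} {S : Finset V} {x z : V} (hz : z ∈ loc G D S x 1) :
    z = x ∨ (G.Adj x z ∧ z ∉ S) := by
  rw [show (1:ℕ) = 0 + 1 from rfl, loc_succ, mem_union] at hz
  rcases hz with hz | hz
  · simp [loc] at hz; exact Or.inl hz
  · rw [mem_sdiff, mem_biUnion] at hz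
    obtain ⟨⟨u, hu, hz1⟩, hz2⟩ := hz
    have : u = x := by simpa [loc] using (mem_sdiff.1 hu).1
    subst this
    exact Or.inr ⟨(mem_nb G).1 hz1, hz2⟩

lemma loc_two {D : ℕ} {S : Finset V} {x z : V} (hz : z ∈ loc G D S x 2) :
    z ∈ loc G D S x 1 ∨ ∃ u ∈ loc G D S x 1, u ∉ hub G D ∧ G.Adj u z ∧ z ∉ S := by
  rw [show (2:ℕ) = 1 + 1 from rfl, loc_succ, mem_union] at hz
  rcases hz with hz | hz
  · exact Or.inl hz
  · rw [mem_sdiff, mem_biUnion] at hz
    obtain ⟨⟨u, hu, hz1⟩, hz2⟩ := hz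
    exact Or.inr ⟨u, (mem_sdiff.1 hu).1, (mem_sdiff.1 hu).2, (mem_nb G).1 hz1, hz2⟩

/-- The vertices which are neither hubs nor bad. -/
noncomputable def typ (D k r : ℕ) : Finset V := univ \ (hub G D ∪ badT G D k r ∅)

lemma typ_card (D k r : ℕ) (hr : 1 ≤ r)
    (hG : ∀ S : Finset V, S.card < k → ∀ u v, u ∉ S → v ∉ S → R G S (r+2) u v) :
    Fintype.card V ≤ (typ G D k r).card + (hub G D).card + Cst D k r k := by
  have h1 := bad_card G D k r hr hG k ∅ (by simp)
  have h2 : (hub G D ∪ badT G D k r ∅).card ≤ (hub G D).card + Cst D k r k :=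
    (card_union_le _ _).trans (by omega)
  have h3 : (typ G D k r).card + (hub G D ∪ badT G D k r ∅).card = Fintype.card V := by
    unfold typ
    rw [card_sdiff_add_card_eq_card (subset_univ _), card_univ]
  omega

lemma typ_spec {D k r : ℕ} {x : V} (hx : x ∈ typ G D k r) :
    x ∉ hub G D ∧ ¬ IsBad G D k r x := by
  rw [typ, mem_sdiff, mem_union, not_or] at hx
  refine ⟨hx.2.1, fun h => hx.2.2 ?_⟩
  rw [badT, mem_filter]
  exact ⟨mem_univ _, h, empty_subset _⟩

/-- Typical vertices in the case `r = 1` have at least `k` hub neighbours. -/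
lemma typ_one {D k : ℕ} {x : V} (hx : x ∈ typ G D k 1) : k ≤ (nb G x ∩ hub G D).card := by
  obtain ⟨h1, h2⟩ := typ_spec G hx
  by_contra hlt
  push Not at hlt
  refine h2 ⟨nb G x ∩ hub G D, h1, ?_, hlt, ?_⟩
  · simp [nb]
  · intro h hh hhub
    rcases loc_one G hh with rfl | ⟨h3, h4⟩
    · exact h1 hhub
    · exact h4 (mem_inter.2 ⟨(mem_nb G).2 h3, hhub⟩)

/-- Non-hubs with a hub neighbour. -/
noncomputable def A1 (D : ℕ) : Finset V :=
  univ.filter (fun x => x ∉ hub G D ∧ (nb G x ∩ hub G D).Nonempty)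

/-- Non-hubs without hub neighbour. -/
noncomputable def A0 (D : ℕ) : Finset V :=
  univ.filter (fun x => x ∉ hub G D ∧ ¬ (nb G x ∩ hub G D).Nonempty)

lemma typ_two {D k : ℕ} {x : V} (hx : x ∈ typ G D k 2) :
    k ≤ (nb G x ∩ hub G D).card + (nb G x ∩ A1 G D).card := by
  obtain ⟨h1, h2⟩ := typ_spec G hx
  by_contra hlt
  push Not at hlt
  have key : ∀ h, G.Adj x h → h ∉ (nb G x ∩ hub G D) ∪ (nb G x ∩ A1 G D) → h ∉ hub G D ∧
      h ∉ A1 G D := by
    intro h h3 h4
    rw [mem_union, not_or, mem_inter, mem_inter] at h4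
    exact ⟨fun h5 => h4.1 ⟨(mem_nb G).2 h3, h5⟩, fun h5 => h4.2 ⟨(mem_nb G).2 h3, h5⟩⟩
  refine h2 ⟨(nb G x ∩ hub G D) ∪ (nb G x ∩ A1 G D), h1, ?_,
    lt_of_le_of_lt (card_union_le _ _) hlt, ?_⟩
  · simp [nb]
  · intro h hh hhub
    rcases loc_two G hh with hh | ⟨u, hu, hu2, hu3, hu4⟩
    · rcases loc_one G hh with rfl | ⟨h3, h4⟩
      · exact h1 hhub
      · exact (key h h3 h4).1 hhub
    · rcases loc_one G hu with rfl | ⟨h3, h4⟩
      · exact (key h hu3 hu4).1 hhub
      · refine (key u h3 h4).2 ?_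
        rw [A1, mem_filter]
        exact ⟨mem_univ _, hu2, ⟨h, mem_inter.2 ⟨(mem_nb G).2 hu3, hhub⟩⟩⟩

/-- Lower bound for distance three. -/
lemma lower_one (D k : ℕ)
    (hG : ∀ S : Finset V, S.card < k → ∀ u v, u ∉ S → v ∉ S → R G S 3 u v) :
    2 * k * Fintype.card V ≤ ds G + 2 * k * (hub G D).card + 2 * k * Cst D k 1 k := by
  have h0 := typ_card G D k 1 le_rfl hG
  have h1 : 2 * k * (typ G D k 1).card ≤ ds G := by
    have e1 : ds G = ∑ v ∈ hub G D, (nb G v).card + ∑ v ∈ (hub G D)ᶜ, (nb G v).card := by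
      unfold ds; rw [sum_add_sum_compl]
    have e2 : ∑ v ∈ (hub G D)ᶜ, (nb G v ∩ hub G D).card ≤ ∑ v ∈ hub G D, (nb G v).card := by
      rw [dc]
      exact sum_le_sum fun v _ => card_le_card inter_subset_left
    have e3 : ∑ v ∈ (hub G D)ᶜ, (nb G v ∩ hub G D).card ≤ ∑ v ∈ (hub G D)ᶜ, (nb G v).card :=
      sum_le_sum fun v _ => card_le_card inter_subset_left
    have e4 : k * (typ G D k 1).card ≤ ∑ v ∈ (hub G D)ᶜ, (nb G v ∩ hub G D).card := by
      calc k * (typ G D k 1).card = ∑ _v ∈ typ G D k 1, k := by simp [mul_comm]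
        _ ≤ ∑ v ∈ typ G D k 1, (nb G v ∩ hub G D).card :=
            sum_le_sum fun v hv => typ_one G hv
        _ ≤ _ := sum_le_sum_of_subset fun v hv => mem_compl.2 (typ_spec G hv).1
    have : 2 * k * (typ G D k 1).card = 2 * (k * (typ G D k 1).card) := by ring
    omega
  calc 2 * k * Fintype.card V
      ≤ 2 * k * ((typ G D k 1).card + (hub G D).card + Cst D k 1 k) := Nat.mul_le_mul_left _ h0
    _ = 2 * k * (typ G D k 1).card + 2 * k * (hub G D).card + 2 * k * Cst D k 1 k := by ring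
    _ ≤ _ := by omega

/-- Lower bound for distance four. -/
lemma lower_two (D k : ℕ) (hk : 1 ≤ k)
    (hG : ∀ S : Finset V, S.card < k → ∀ u v, u ∉ S → v ∉ S → R G S 4 u v) :
    (k + 1) * Fintype.card V ≤ ds G + (k + 1) * (hub G D).card + (k + 1) * Cst D k 2 k := by
  have h0 := typ_card G D k 2 (by norm_num) hG
  have h1 : (k + 1) * (typ G D k 2).card ≤ ds G := by
    have d1 : Disjoint (hub G D) (A1 G D) := by
      rw [disjoint_left]; intro x hx hx'; rw [A1, mem_filter] at hx'; exact hx'.2.1 hx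
    have d2 : Disjoint (hub G D) (A0 G D) := by
      rw [disjoint_left]; intro x hx hx'; rw [A0, mem_filter] at hx'; exact hx'.2.1 hx
    have d3 : Disjoint (A1 G D) (A0 G D) := by
      rw [disjoint_left]; intro x hx hx'
      rw [A0, mem_filter] at hx'; rw [A1, mem_filter] at hx; exact hx'.2.2 hx.2.2
    have e1 : ∑ v ∈ hub G D, (nb G v).card + ∑ v ∈ A1 G D, (nb G v).card
        + ∑ v ∈ A0 G D, (nb G v).card ≤ ds G := by
      unfold ds
      rw [← sum_union d1, ← sum_union (disjoint_union_left.2 ⟨d2, d3⟩)]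
      exact sum_le_sum_of_subset (subset_univ _)
    have e2 : ∑ v ∈ A1 G D, (nb G v ∩ hub G D).card ≤ ∑ v ∈ hub G D, (nb G v).card := by
      rw [dc]
      exact sum_le_sum fun v _ => card_le_card inter_subset_left
    have e3 : ∑ v ∈ A1 G D, ((nb G v ∩ hub G D).card + (nb G v ∩ A1 G D).card
        + (nb G v ∩ A0 G D).card) ≤ ∑ v ∈ A1 G D, (nb G v).card := by
      refine sum_le_sum fun v _ => ?_
      rw [← card_union_of_disjoint (d1.mono inter_subset_right inter_subset_right),
        ← card_union_of_disjoint]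
      · refine card_le_card (union_subset (union_subset ?_ ?_) ?_) <;> exact inter_subset_left
      · exact disjoint_union_left.2 ⟨d2.mono inter_subset_right inter_subset_right,
          d3.mono inter_subset_right inter_subset_right⟩
    have e4 : ∑ v ∈ A1 G D, (nb G v ∩ A0 G D).card = ∑ v ∈ A0 G D, (nb G v ∩ A1 G D).card := by
      rw [dc]
    have e5 : ∑ v ∈ A0 G D, (nb G v ∩ A1 G D).card ≤ ∑ v ∈ A0 G D, (nb G v).card :=
      sum_le_sum fun v _ => card_le_card inter_subset_left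
    rw [sum_add_distrib, sum_add_distrib] at e3
    have e6 : (k + 1) * (A1 G D ∩ typ G D k 2).card ≤
        ∑ v ∈ A1 G D, (2 * (nb G v ∩ hub G D).card + (nb G v ∩ A1 G D).card) := by
      calc (k + 1) * (A1 G D ∩ typ G D k 2).card
          = ∑ _v ∈ A1 G D ∩ typ G D k 2, (k + 1) := by simp [mul_comm]
        _ ≤ ∑ v ∈ A1 G D ∩ typ G D k 2,
            (2 * (nb G v ∩ hub G D).card + (nb G v ∩ A1 G D).card) := by
            refine sum_le_sum fun v hv => ?_
            have h2 := typ_two G (mem_inter.1 hv).2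
            have h3 := (mem_inter.1 hv).1
            rw [A1, mem_filter] at h3
            have h4 := card_pos.2 h3.2.2
            omega
        _ ≤ _ := sum_le_sum_of_subset inter_subset_left
    have e7 : (k + 1) * (A0 G D ∩ typ G D k 2).card ≤
        ∑ v ∈ A0 G D, 2 * (nb G v ∩ A1 G D).card := by
      calc (k + 1) * (A0 G D ∩ typ G D k 2).card
          = ∑ _v ∈ A0 G D ∩ typ G D k 2, (k + 1) := by simp [mul_comm]
        _ ≤ ∑ v ∈ A0 G D ∩ typ G D k 2, 2 * (nb G v ∩ A1 G D).card := by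
            refine sum_le_sum fun v hv => ?_
            have h2 := typ_two G (mem_inter.1 hv).2
            have h3 := (mem_inter.1 hv).1
            rw [A0, mem_filter] at h3
            have h4 := not_nonempty_iff_eq_empty.1 h3.2.2
            rw [h4, card_empty] at h2
            omega
        _ ≤ _ := sum_le_sum_of_subset inter_subset_left
    have e8 : (typ G D k 2).card ≤ (A1 G D ∩ typ G D k 2).card + (A0 G D ∩ typ G D k 2).card := by
      refine (card_le_card ?_).trans (card_union_le _ _)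
      intro x hx
      have h2 := typ_spec G hx
      by_cases h3 : (nb G x ∩ hub G D).Nonempty
      · exact mem_union_left _ (mem_inter.2 ⟨by rw [A1, mem_filter]; exact ⟨mem_univ _, h2.1, h3⟩, hx⟩)
      · exact mem_union_right _ (mem_inter.2 ⟨by rw [A0, mem_filter]; exact ⟨mem_univ _, h2.1, h3⟩, hx⟩)
    rw [sum_add_distrib, ← mul_sum] at e6
    rw [← mul_sum] at e7
    have e9 := Nat.mul_le_mul_left (k+1) e8
    rw [Nat.mul_add] at e9
    omega
  calc (k + 1) * Fintype.card V
      ≤ (k + 1) * ((typ G D k 2).card + (hub G D).card + Cst D k 2 k) := Nat.mul_le_mul_left _ h0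
    _ = (k + 1) * (typ G D k 2).card + (k + 1) * (hub G D).card + (k + 1) * Cst D k 2 k := by ring
    _ ≤ _ := by omega

end X146FD
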