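import Mathlib

namespace X146FD

/-- `G` has the property that, after deleting any set `S` of `k - 1` vertices, the remaining graph
has diameter at most `d` (`ediam` is infinite for a disconnected graph). -/
def Tolerant (n d k : ℕ) (G : SimpleGraph (Fin n)) : Prop :=
  ∀ S : Finset (Fin n), S.card = k - 1 → (G.induce {x : Fin n | x ∉ S}).ediam ≤ (d : ℕ∞)

/-- The least number of edges of such a graph on `n` vertices. -/
noncomputable def fhat (n d k : ℕ) : ℕ :=
  sInf {m : ℕ | ∃ G : SimpleGraph (Fin n), Tolerant n d k G ∧ G.edgeSet.ncard = m}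

/-- The edge excess. -/
noncomputable def phi (n d k : ℕ) : ℝ := (fhat n d k : ℝ) - (k : ℝ) * n / 2

end X146FD
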