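import Pool.Agent.X146.FD.Limit

open Finset Classical

namespace X146FD

variable {V : Type*} [Fintype V] (G : SimpleGraph V)

lemma loc_anti (D : ℕ) {S S' : Finset V} (h : S ⊆ S') (x : V) (i : ℕ) :
    loc G D S' x i ⊆ loc G D S x i := by
  induction i with
  | zero => exact fun _ h => h
  | succ i ih =>
    intro z hz
    rw [loc_succ, mem_union] at hz ⊢
    rcases hz with hz | hz
    · exact Or.inl (ih hz)
    · right
      rw [Finset.mem_sdiff, mem_biUnion] at hz ⊢
      obtain ⟨⟨u, hu, hz1⟩, hz2⟩ := hz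
      rw [Finset.mem_sdiff] at hu
      exact ⟨⟨u, Finset.mem_sdiff.2 ⟨ih hu.1, hu.2⟩, hz1⟩, fun h3 => hz2 (h h3)⟩

/-- The hubs within two steps of `x`. -/
noncomputable def W (D : ℕ) (x : V) : Finset V := loc G D ∅ x 2 ∩ hub G D

lemma decomp5 (D : ℕ) (S : Finset V) (x y : V) (hx : ∀ h ∈ loc G D S x 2, h ∉ hub G D)
    (hy : y ∉ hub G D) (hyS : ∀ h ∈ hub G D, G.Adj h y → h ∈ S) (m i : ℕ) (u : V)
    (hu : u ∈ loc G D S x i) (hu2 : u ∉ hub G D) (hR : R G S m u y) (him : i + m ≤ 5) :
    y ∈ loc G D S x 5 ∨ ∃ h ∈ hub G D, h ∈ loc G D S x 3 ∧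
      ∃ z, z ∉ hub G D ∧ G.Adj h z ∧ G.Adj z y := by
  induction m generalizing i u with
  | zero =>
    simp only [R] at hR
    subst hR
    exact Or.inl (loc_mono G D S x (by omega) hu)
  | succ m ih =>
    rcases hR with hR | ⟨z, h1, h2, h3⟩
    · subst hR
      exact Or.inl (loc_mono G D S x (by omega) hu)
    · have hz : z ∈ loc G D S x (i+1) := loc_step G D S x i hu hu2 h1 h2
      by_cases hzh : z ∈ hub G D
      · right
        have hir : 2 ≤ i := by
          by_contra hlt
          exact hx z (loc_mono G D S x (by omega) hz) hzh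
        have hm : m ≤ 2 := by omega
        have hzy : z ≠ y := fun h => hy (h ▸ hzh)
        have h3' : R G S 2 z y := R_mono G S hm h3
        rcases h3' with h4 | ⟨z', h4, h5, h6⟩
        · exact absurd h4 hzy
        · have hz'y : z' ≠ y := fun h => h2 (hyS z hzh (h ▸ h4))
          rcases h6 with h7 | ⟨z'', h7, h8, h9⟩
          · exact absurd h7 hz'y
          · simp only [R] at h9
            subst h9
            have hz'h : z' ∉ hub G D := fun h => h5 (hyS z' h h7)
            have hi : i = 2 := by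
              -- the walk from `z` needs two steps
              rcases Nat.lt_or_ge m 2 with h | h
              · exfalso
                have h3'' : R G S 1 z z'' := R_mono G S (by omega) h3
                rcases h3'' with h10 | ⟨w, h10, h11, h12⟩
                · exact hzy h10
                · simp only [R] at h12
                  subst h12
                  exact h2 (hyS z hzh h10)
              · omega
            subst hi
            exact ⟨z, hzh, hz, z', hz'h, h4, h7⟩
      · exact ih (i+1) z hz hzh h3 (by omega)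

/-- The bound for families. -/
def C5 (D : ℕ) : ℕ → ℕ
  | 0 => 0
  | (m+1) => (D+1)^5 + (D+1)^3 * C5 D m

lemma fam_card (D k : ℕ)
    (hG : ∀ S : Finset V, S.card < k → ∀ u v, u ∉ S → v ∉ S → R G S 5 u v) :
    ∀ m (T P : Finset V), k ≤ T.card + m → (∀ x ∈ P, x ∉ hub G D) → (∀ x ∈ P, T ⊆ W G D x) →
      (∀ x ∈ P, ∀ y ∈ P, (W G D x ∪ (nb G y ∩ hub G D)).card < k) → P.card ≤ C5 D m := by
  intro m
  induction m with
  | zero =>
    intro T P hT hP1 hP2 hP3
    have : P = ∅ := by
      rw [eq_empty_iff_forall_notMem]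
      intro x hx
      have h1 := card_le_card (hP2 x hx)
      have h2 := card_le_card (subset_union_left (s₁ := W G D x) (s₂ := nb G x ∩ hub G D))
      have h3 := hP3 x hx x hx
      omega
    rw [this]; simp
  | succ m ih =>
    intro T P hT hP1 hP2 hP3
    rcases P.eq_empty_or_nonempty with he | ⟨x, hx⟩
    · rw [he]; simp
    · have hsub : P ⊆ loc G D ∅ x 5 ∪
          ((loc G D ∅ x 3) \ T).biUnion (fun h => P.filter (fun y => h ∈ W G D y)) := by
        intro y hy
        set S := W G D x ∪ (nb G y ∩ hub G D) with hS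
        have hSh : S ⊆ hub G D := union_subset inter_subset_right inter_subset_right
        have hxS : x ∉ S := fun h => hP1 x hx (hSh h)
        have hyS : y ∉ S := fun h => hP1 y hy (hSh h)
        have hR := hG S (hP3 x hx y hy) x y hxS hyS
        have hx2 : ∀ h ∈ loc G D S x 2, h ∉ hub G D := by
          intro h hh hhub
          have h1 : h ∈ W G D x := mem_inter.2 ⟨loc_anti G D (empty_subset S) x 2 hh, hhub⟩
          rcases loc_avoid G D S x 2 hh with h2 | h2
          · exact hP1 x hx (h2 ▸ hhub)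
          · exact h2 (mem_union_left _ h1)
        rcases decomp5 G D S x y hx2 (hP1 y hy)
          (fun h h1 h2 => mem_union_right _ (mem_inter.2 ⟨(mem_nb G).2 h2.symm, h1⟩))
          5 0 x (by simp [loc]) (hP1 x hx) hR (by omega) with h | ⟨h, h1, h2, z, h3, h4, h5⟩
        · exact mem_union_left _ (loc_anti G D (empty_subset S) x 5 h)
        · refine mem_union_right _ (mem_biUnion.2 ⟨h, Finset.mem_sdiff.2
            ⟨loc_anti G D (empty_subset S) x 3 h2, ?_⟩, ?_⟩)
          · intro hT'
            rcases loc_avoid G D S x 3 h2 with h6 | h6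
            · exact hP1 x hx (h6 ▸ h1)
            · exact h6 (mem_union_left _ (hP2 x hx hT'))
          · rw [mem_filter]
            refine ⟨hy, mem_inter.2 ⟨?_, h1⟩⟩
            have h6 : z ∈ loc G D ∅ y (0+1) :=
              loc_step G D _ y 0 (by simp [loc]) (hP1 y hy) h5.symm (by simp)
            exact loc_step G D _ y 1 h6 h3 h4.symm (by simp)
      refine (card_le_card hsub).trans ?_
      refine (card_union_le _ _).trans ?_
      have h1 : (loc G D ∅ x 5).card ≤ (D+1)^5 := loc_card G D ∅ x _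
      have h2 : (((loc G D ∅ x 3) \ T).biUnion (fun h => P.filter (fun y => h ∈ W G D y))).card
          ≤ (D+1)^3 * C5 D m := by
        refine (card_biUnion_le_card_mul _ _ (C5 D m) ?_).trans
          (Nat.mul_le_mul_right _ ((card_le_card sdiff_subset).trans (loc_card G D ∅ x _)))
        intro h hh
        refine ih (insert h T) _ ?_ ?_ ?_ ?_
        · rw [card_insert_of_notMem (Finset.mem_sdiff.1 hh).2]
          omega
        · intro y hy; exact hP1 y (mem_filter.1 hy).1
        · intro y hy
          exact insert_subset (mem_filter.1 hy).2 (hP2 y (mem_filter.1 hy).1)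
        · intro y hy z hz
          exact hP3 y (mem_filter.1 hy).1 z (mem_filter.1 hz).1
      calc _ ≤ (D+1)^5 + (D+1)^3 * C5 D m := Nat.add_le_add h1 h2
        _ = C5 D (m+1) := by simp [C5]

/-- Number of hub neighbours. -/
noncomputable def a (D : ℕ) (x : V) : ℕ := (nb G x ∩ hub G D).card

/-- Number of non-hub neighbours. -/
noncomputable def l (D : ℕ) (x : V) : ℕ := (nb G x \ hub G D).card

noncomputable def B1 (D k : ℕ) : Finset V :=
  univ.filter (fun y => y ∉ hub G D ∧ (W G D y).card + a G D y < k)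

noncomputable def B2 (D k : ℕ) : Finset V :=
  univ.filter (fun y => y ∉ hub G D ∧ a G D y = 1 ∧ (W G D y).card < k)

lemma B1_card (D k : ℕ)
    (hG : ∀ S : Finset V, S.card < k → ∀ u v, u ∉ S → v ∉ S → R G S 5 u v) :
    (B1 G D k).card ≤ k * C5 D k := by
  have hsub : B1 G D k ⊆ (range k).biUnion (fun c => (B1 G D k).filter (fun y => a G D y = c)) := by
    intro y hy
    have hy' := hy
    rw [B1, mem_filter] at hy'
    exact mem_biUnion.2 ⟨a G D y, mem_range.2 (by omega), mem_filter.2 ⟨hy, rfl⟩⟩
  refine (card_le_card hsub).trans ?_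
  have := card_biUnion_le_card_mul (range k)
    (fun c => (B1 G D k).filter (fun y => a G D y = c)) (C5 D k) ?_
  · rwa [card_range] at this
  · intro c _
    refine fam_card G D k hG k ∅ _ (by simp) ?_ (fun _ _ => empty_subset _) ?_
    · intro y hy
      have := (mem_filter.1 hy).1
      rw [B1, mem_filter] at this
      exact this.2.1
    · intro x hx y hy
      have h1 := (mem_filter.1 hx).1
      have h2 := (mem_filter.1 hx).2
      have h3 := (mem_filter.1 hy).2
      rw [B1, mem_filter] at h1
      have h4 := card_union_le (W G D x) (nb G y ∩ hub G D)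
      have h5 := h1.2.2
      rw [h2, ← h3] at h5
      exact lt_of_le_of_lt h4 h5

/-- The sum of the degrees of hubs. -/
noncomputable def sd (D : ℕ) : ℕ := ∑ v ∈ hub G D, (nb G v).card

noncomputable def mid (D D' : ℕ) : ℕ := ∑ v ∈ hub G D \ hub G D', (nb G v).card

lemma hub_anti {D D' : ℕ} (h : D ≤ D') : hub G D' ⊆ hub G D := by
  intro x hx
  rw [mem_hub] at hx ⊢
  omega

lemma mid_add {D D' : ℕ} (h : D ≤ D') : mid G D D' + sd G D' = sd G D := by
  unfold mid sd
  exact sum_sdiff (hub_anti G h)

lemma B2_card (D D' k : ℕ)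
    (hG : ∀ S : Finset V, S.card < k → ∀ u v, u ∉ S → v ∉ S → R G S 5 u v) (hD : D ≤ D') :
    (B2 G D k).card ≤ C5 D k * (hub G D').card + mid G D D' := by
  have hsub : B2 G D k ⊆
      (hub G D).biUnion (fun h => (B2 G D k).filter (fun y => h ∈ nb G y)) := by
    intro y hy
    have hy' := hy
    rw [B2, mem_filter] at hy'
    have h1 : (nb G y ∩ hub G D).Nonempty := by
      rw [← card_pos]
      have := hy'.2.2.1
      unfold a at this
      omega
    obtain ⟨h, hh⟩ := h1
    rw [mem_inter] at hh
    exact mem_biUnion.2 ⟨h, hh.2, mem_filter.2 ⟨hy, hh.1⟩⟩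
  have hfam : ∀ h ∈ hub G D, ((B2 G D k).filter (fun y => h ∈ nb G y)).card ≤ C5 D k := by
    intro h hh
    refine fam_card G D k hG k ∅ _ (by simp) ?_ (fun _ _ => empty_subset _) ?_
    · intro y hy
      have := (mem_filter.1 hy).1
      rw [B2, mem_filter] at this
      exact this.2.1
    · intro x hx y hy
      have h1 := (mem_filter.1 hx).1
      have h2 := (mem_filter.1 hx).2
      have h3 := (mem_filter.1 hy).1
      have h4 := (mem_filter.1 hy).2
      rw [B2, mem_filter] at h1 h3
      have h5 : nb G y ∩ hub G D ⊆ W G D x := by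
        obtain ⟨b, hb⟩ := card_eq_one.1 h3.2.2.1
        have h6 : h ∈ nb G y ∩ hub G D := mem_inter.2 ⟨h4, hh⟩
        rw [hb, mem_singleton] at h6
        rw [hb, ← h6, singleton_subset_iff]
        refine mem_inter.2 ⟨?_, hh⟩
        have h7 : h ∈ loc G D ∅ x (0+1) :=
          loc_step G D _ x 0 (by simp [loc]) h1.2.1 ((mem_nb G).1 h2) (by simp)
        exact loc_mono G D _ x (by norm_num) h7
      rw [union_eq_left.2 h5]
      exact h1.2.2.2
  have hfam2 : ∀ h ∈ hub G D, ((B2 G D k).filter (fun y => h ∈ nb G y)).card ≤ (nb G h).card := by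
    intro h _
    refine card_le_card ?_
    intro y hy
    have := (mem_filter.1 hy).2
    rw [mem_nb] at this ⊢
    exact this.symm
  refine (card_le_card hsub).trans (card_biUnion_le.trans ?_)
  rw [← sum_sdiff (hub_anti G hD)]
  have h1 : ∑ x ∈ hub G D \ hub G D', ((B2 G D k).filter (fun y => x ∈ nb G y)).card ≤
      mid G D D' := sum_le_sum fun v hv => hfam2 v (Finset.mem_sdiff.1 hv).1
  have h2 : ∑ x ∈ hub G D', ((B2 G D k).filter (fun y => x ∈ nb G y)).card ≤
      C5 D k * (hub G D').card := by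
    calc _ ≤ ∑ _x ∈ hub G D', C5 D k := sum_le_sum fun v hv => hfam v (hub_anti G hD hv)
      _ = _ := by simp [mul_comm]
  omega

lemma deg_eq (D : ℕ) (x : V) : (nb G x).card = a G D x + l G D x := by
  unfold a l
  exact (card_inter_add_card_sdiff _ _).symm

/-- truncated number of hub neighbours -/
noncomputable def M (D k : ℕ) (z : V) : ℕ := min (a G D z) k

noncomputable def Sg (D k : ℕ) (x : V) : ℕ := ∑ z ∈ nb G x \ hub G D, M G D k z

lemma W_card (D k : ℕ) (x : V) (hx : x ∉ hub G D) :
    min k (W G D x).card ≤ a G D x + Sg G D k x := by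
  by_cases h : ∃ z ∈ nb G x \ hub G D, k ≤ a G D z
  · obtain ⟨z, hz, hk⟩ := h
    have h1 : M G D k z ≤ Sg G D k x :=
      single_le_sum (f := fun z => M G D k z) (fun _ _ => Nat.zero_le _) hz
    have h2 : M G D k z = k := min_eq_right hk
    have h3 : min k (W G D x).card ≤ k := min_le_left _ _
    omega
  · push Not at h
    have h1 : Sg G D k x = ∑ z ∈ nb G x \ hub G D, a G D z :=
      sum_congr rfl fun z hz => min_eq_left (h z hz).le
    have h2 : W G D x ⊆ (nb G x ∩ hub G D) ∪
        (nb G x \ hub G D).biUnion (fun z => nb G z ∩ hub G D) := by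
      intro y hy
      obtain ⟨hy1, hy2⟩ := mem_inter.1 hy
      have hone : ∀ u, u ∈ loc G D ∅ x 1 → u = x ∨ G.Adj x u := fun u hu =>
        (loc_one G hu).imp id (fun h => h.1)
      have hadj : G.Adj x y → y ∈ (nb G x ∩ hub G D) ∪
        (nb G x \ hub G D).biUnion (fun z => nb G z ∩ hub G D) := fun h3 =>
          mem_union_left _ (mem_inter.2 ⟨(mem_nb G).2 h3, hy2⟩)
      rcases loc_two G hy1 with h3 | ⟨u, h3, h4, h5, -⟩
      · rcases hone y h3 with h6 | h6
        · exact absurd (h6 ▸ hy2) hx
        · exact hadj h6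
      · rcases hone u h3 with h6 | h6
        · exact hadj (h6 ▸ h5)
        · exact mem_union_right _ (mem_biUnion.2 ⟨u, Finset.mem_sdiff.2 ⟨(mem_nb G).2 h6, h4⟩,
            mem_inter.2 ⟨(mem_nb G).2 h5, hy2⟩⟩)
    have h3 := (card_le_card h2).trans ((card_union_le _ _).trans
      (Nat.add_le_add_left card_biUnion_le _))
    have h4 : min k (W G D x).card ≤ (W G D x).card := min_le_right _ _
    have h5 : ∑ z ∈ nb G x \ hub G D, a G D z =
      ∑ z ∈ nb G x \ hub G D, (nb G z ∩ hub G D).card := rfl
    have h6 : a G D x = (nb G x ∩ hub G D).card := rfl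
    rw [h1, h5, h6]
    omega

lemma Sg_sum (D k : ℕ) :
    ∑ x ∈ (hub G D)ᶜ, Sg G D k x = ∑ z ∈ (hub G D)ᶜ, M G D k z * l G D z := by
  have h1 : ∀ x, nb G x \ hub G D = ((hub G D)ᶜ).filter (fun z => G.Adj x z) := by
    intro x
    ext z
    rw [Finset.mem_sdiff, mem_filter, mem_compl, mem_nb]
    exact and_comm
  unfold Sg l
  simp_rw [h1, sum_filter, card_filter, mul_sum]
  rw [sum_comm]
  refine sum_congr rfl fun z _ => sum_congr rfl fun x _ => ?_
  by_cases h : G.Adj z x
  · rw [if_pos h.symm, if_pos h, mul_one]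
  · rw [if_neg (fun h' => h h'.symm), if_neg h, mul_zero]

lemma mindeg (k : ℕ) (hn : k + 1 ≤ Fintype.card V)
    (hG : ∀ S : Finset V, S.card < k → ∀ u v, u ∉ S → v ∉ S → R G S 5 u v) (x : V) :
    k ≤ (nb G x).card := by
  by_contra hlt
  push Not at hlt
  have h1 : (insert x (nb G x)).card ≤ k := (card_insert_le _ _).trans hlt
  obtain ⟨v, hv⟩ : ∃ v, v ∉ insert x (nb G x) := by
    by_contra hcon
    push Not at hcon
    have : (univ : Finset V) ⊆ insert x (nb G x) := fun v _ => hcon v
    have := card_le_card this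
    rw [card_univ] at this
    omega
  rw [mem_insert, not_or] at hv
  rcases hG (nb G x) hlt x v (by simp [nb]) hv.2 with h | ⟨z, h2, h3, -⟩
  · exact hv.1 h.symm
  · exact h3 ((mem_nb G).2 h2)

/-- typical vertices -/
noncomputable def typ5 (D k : ℕ) : Finset V := univ \ (hub G D ∪ (B1 G D k ∪ B2 G D k))

lemma typ5_card (D k : ℕ) : Fintype.card V ≤
    (typ5 G D k).card + (hub G D).card + (B1 G D k).card + (B2 G D k).card := by
  have h3 : (typ5 G D k).card + (hub G D ∪ (B1 G D k ∪ B2 G D k)).card = Fintype.card V := by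
    unfold typ5
    rw [card_sdiff_add_card_eq_card (subset_univ _), card_univ]
  have h4 := card_union_le (hub G D) (B1 G D k ∪ B2 G D k)
  have h5 := card_union_le (B1 G D k) (B2 G D k)
  omega

lemma arith0 (k a l s : ℕ) (hd : k ≤ a + l) : min a k * l + k * k ≤ k * (2 * a + l) + s := by
  rcases Nat.lt_or_ge a k with h | h
  · rw [min_eq_left h.le]
    obtain ⟨b, rfl⟩ : ∃ b, k = a + b := ⟨k - a, by omega⟩
    have hb : b ≤ l := by omega
    have := Nat.mul_le_mul_left b hb
    nlinarith [Nat.zero_le (a*a), Nat.zero_le s]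
  · rw [min_eq_right h]
    have := Nat.mul_le_mul_left k h
    nlinarith [Nat.zero_le s]

lemma arith1 (k a l s w : ℕ) (hk : 1 ≤ k) (hd : k ≤ a + l) (hw : min k w ≤ a + s)
    (h1 : k ≤ w + a) (h2 : a = 1 → k ≤ w) :
    min a k * l + k * k + k ≤ k * (2 * a + l) + s := by
  rcases Nat.lt_or_ge a k with h | h
  · rw [min_eq_left h.le]
    obtain ⟨b, rfl⟩ : ∃ b, k = a + b := ⟨k - a, by omega⟩
    have hb : b ≤ l := by omega
    have hm := Nat.mul_le_mul_left b hb
    rcases Nat.lt_or_ge a 2 with h3 | h3
    · rcases Nat.lt_or_ge a 1 with h4 | h4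
      · have : a = 0 := by omega
        subst this
        rw [min_eq_left (by omega)] at hw
        nlinarith
      · have : a = 1 := by omega
        subst this
        rw [min_eq_left (h2 rfl)] at hw
        nlinarith
    · have hs : b ≤ a + s := by
        refine le_trans ?_ hw
        refine le_min (by omega) (by omega)
      have h5 := Nat.mul_le_mul_left a h3
      nlinarith
  · rw [min_eq_right h]
    have := Nat.mul_le_mul_left k h
    have h6 := Nat.mul_le_mul_left k hk
    nlinarith [Nat.zero_le s]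

lemma typ5_bound (D k : ℕ) (hk : 1 ≤ k) (hn : k + 1 ≤ Fintype.card V)
    (hG : ∀ S : Finset V, S.card < k → ∀ u v, u ∉ S → v ∉ S → R G S 5 u v) :
    (k + 1) * (typ5 G D k).card ≤ ds G := by
  have hsub : typ5 G D k ⊆ (hub G D)ᶜ := by
    intro x hx
    rw [typ5, Finset.mem_sdiff, mem_union, not_or] at hx
    exact mem_compl.2 hx.2.1
  have h1 : ∀ x ∈ (hub G D)ᶜ, M G D k x * l G D x + k * k + (if x ∈ typ5 G D k then k else 0) ≤
      k * (2 * a G D x + l G D x) + Sg G D k x := by
    intro x hx
    have hd : k ≤ a G D x + l G D x := by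
      rw [← deg_eq]; exact mindeg G k hn hG x
    by_cases ht : x ∈ typ5 G D k
    · rw [if_pos ht]
      have ht' := ht
      rw [typ5, Finset.mem_sdiff, mem_union, mem_union, not_or, not_or] at ht'
      obtain ⟨-, t1, t2, t3⟩ := ht'
      refine arith1 k (a G D x) (l G D x) (Sg G D k x) (W G D x).card hk hd
        (W_card G D k x t1) ?_ ?_
      · by_contra hlt
        push Not at hlt
        exact t2 (by rw [B1, mem_filter]; exact ⟨mem_univ _, t1, hlt⟩)
      · intro ha
        by_contra hlt
        push Not at hlt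
        exact t3 (by rw [B2, mem_filter]; exact ⟨mem_univ _, t1, ha, hlt⟩)
    · rw [if_neg ht, Nat.add_zero]
      exact arith0 k (a G D x) (l G D x) (Sg G D k x) hd
  have h2 := sum_le_sum h1
  rw [sum_add_distrib, sum_add_distrib, sum_add_distrib, Sg_sum, ← sum_filter] at h2
  have h20 : ∑ x ∈ (hub G D)ᶜ, k * (2 * a G D x + l G D x) =
      k * ∑ x ∈ (hub G D)ᶜ, (2 * a G D x + l G D x) := (mul_sum _ _ _).symm
  rw [h20] at h2
  have h3 : ((hub G D)ᶜ).filter (fun x => x ∈ typ5 G D k) = typ5 G D k := by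
    ext x
    rw [mem_filter]
    exact ⟨fun h => h.2, fun h => ⟨hsub h, h⟩⟩
  rw [h3] at h2
  simp only [sum_const, smul_eq_mul] at h2
  have h4 := card_le_card hsub
  have h5 : ∑ x ∈ (hub G D)ᶜ, (2 * a G D x + l G D x) ≤ ds G := by
    have e1 : ds G = ∑ v ∈ hub G D, (nb G v).card + ∑ v ∈ (hub G D)ᶜ, (nb G v).card := by
      unfold ds; rw [sum_add_sum_compl]
    have e2 : ∑ v ∈ (hub G D)ᶜ, a G D v ≤ ∑ v ∈ hub G D, (nb G v).card := by
      unfold a
      rw [dc]
      exact sum_le_sum fun v _ => card_le_card inter_subset_left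
    have e3 : ∑ x ∈ (hub G D)ᶜ, (2 * a G D x + l G D x) =
        ∑ v ∈ (hub G D)ᶜ, a G D v + ∑ v ∈ (hub G D)ᶜ, (nb G v).card := by
      rw [← sum_add_distrib]
      refine sum_congr rfl fun v _ => ?_
      rw [deg_eq G D v]
      ring
    omega
  have h6 := Nat.mul_le_mul_left k h5
  have h7 := Nat.mul_le_mul_right (k * k) h4
  have h8 : k * ((k + 1) * (typ5 G D k).card) ≤ k * ds G := by nlinarith
  exact Nat.le_of_mul_le_mul_left h8 hk

lemma lower5 (D D' k : ℕ) (hk : 1 ≤ k) (hn : k + 1 ≤ Fintype.card V) (hD : D ≤ D')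
    (hG : ∀ S : Finset V, S.card < k → ∀ u v, u ∉ S → v ∉ S → R G S 5 u v) :
    (k + 1) * Fintype.card V ≤ ds G + (k + 1) * ((hub G D).card + k * C5 D k +
      (C5 D k * (hub G D').card + mid G D D')) := by
  have h1 := typ5_bound G D k hk hn hG
  have h2 := typ5_card G D k
  have h3 := B1_card G D k hG
  have h4 := B2_card G D D' k hG hD
  have h5 : Fintype.card V ≤ (typ5 G D k).card + ((hub G D).card + k * C5 D k +
      (C5 D k * (hub G D').card + mid G D D')) := by omega
  have h6 := Nat.mul_le_mul_left (k+1) h5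
  rw [Nat.mul_add] at h6
  omega

end X146FD
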