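import Pool.Agent.X146.FD.Upper

open Finset Classical Filter Topology

namespace X146FD

lemma R_anti {V : Type*} (G : SimpleGraph V) {S S' : Finset V} (h : S ⊆ S') (m : ℕ) (u v : V)
    (hR : R G S' m u v) : R G S m u v := by
  induction m generalizing u with
  | zero => exact hR
  | succ m ih =>
    rcases hR with hR | ⟨z, h1, h2, h3⟩
    · exact Or.inl hR
    · exact Or.inr ⟨z, h1, fun h4 => h2 (h h4), ih z h3⟩

lemma R_of_tol {n d k : ℕ} (hk : 1 ≤ k) (hn : k + 1 ≤ n) {G : SimpleGraph (Fin n)}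
    (hG : Tolerant n d k G) (S : Finset (Fin n)) (hS : S.card < k) (u v : Fin n)
    (hu : u ∉ S) (hv : v ∉ S) : R G S d u v := by
  have h1 : S ⊆ univ \ {u, v} := by
    intro s hs
    rw [Finset.mem_sdiff, Finset.mem_insert, Finset.mem_singleton]
    refine ⟨mem_univ _, ?_⟩
    rintro (rfl | rfl)
    · exact hu hs
    · exact hv hs
  have h2 : k - 1 ≤ (univ \ {u, v} : Finset (Fin n)).card := by
    have h3 : (univ \ {u, v} : Finset (Fin n)).card + ({u, v} : Finset (Fin n)).card = n := by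
      rw [card_sdiff_add_card_eq_card (subset_univ _), card_univ, Fintype.card_fin]
    have h4 : ({u, v} : Finset (Fin n)).card ≤ 2 := card_le_two
    omega
  obtain ⟨S', h3, h4, h5⟩ := exists_subsuperset_card_eq h1 (by omega : S.card ≤ k - 1) h2
  have hu' : u ∉ S' := fun h => by
    have := h4 h
    simp at this
  have hv' : v ∉ S' := fun h => by
    have := h4 h
    simp at this
  have h6 := SimpleGraph.ediam_le_iff.1 (hG S' h5) ⟨u, hu'⟩ ⟨v, hv'⟩
  have h7 : (G.induce {x : Fin n | x ∉ S'}).edist ⟨u, hu'⟩ ⟨v, hv'⟩ ≠ ⊤ := by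
    intro h
    rw [h] at h6
    exact absurd h6 (by simp)
  obtain ⟨w, hw⟩ := SimpleGraph.exists_walk_of_edist_ne_top h7
  rw [← hw] at h6
  have h8 : w.length ≤ d := by exact_mod_cast h6
  exact R_anti G h3 d u v (R_mono G S' h8 (R_of_walk G S' w))

lemma tend (F : ℕ → ℕ) (c C' n0 : ℕ) (hup : ∀ n ≥ n0, F n ≤ c * n + C')
    (hlow : ∀ D : ℕ, ∃ C : ℕ, ∀ n ≥ n0, c * n * (D+1) ≤ F n * (D+1) + c * F n + c * C * (D+1)) :
    Tendsto (fun n => (F n : ℝ) / n) atTop (𝓝 c) := by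
  rw [Metric.tendsto_atTop]
  intro ε hε
  obtain ⟨D, hD⟩ := exists_nat_gt (2 * (c:ℝ)^2 / ε)
  obtain ⟨C, hC⟩ := hlow D
  obtain ⟨N, hN⟩ := exists_nat_gt (2 * ((C':ℝ) + c * C' + c * C) / ε)
  refine ⟨max (max n0 N) 1, fun n hn => ?_⟩
  have hn0 : n0 ≤ n := (le_max_left _ _).trans ((le_max_left _ _).trans hn)
  have hnN : N ≤ n := (le_max_right _ _).trans ((le_max_left _ _).trans hn)
  have hn1 : 1 ≤ n := (le_max_right _ _).trans hn
  have h1 : (F n : ℝ) ≤ c * n + C' := by exact_mod_cast hup n hn0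
  have h2 : (c:ℝ) * n * (D+1) ≤ F n * (D+1) + c * F n + c * C * (D+1) := by
    exact_mod_cast hC n hn0
  have hn' : (0:ℝ) < n := by exact_mod_cast hn1
  have hNn : (N:ℝ) ≤ n := by exact_mod_cast hnN
  rw [div_lt_iff₀ hε] at hD hN
  have hcC : (0:ℝ) ≤ C' := Nat.cast_nonneg _
  have hcc : (0:ℝ) ≤ c := Nat.cast_nonneg _
  have hCC : (0:ℝ) ≤ C := Nat.cast_nonneg _
  have hDD : (0:ℝ) ≤ D := Nat.cast_nonneg _
  have h3 : 2 * ((C':ℝ) + c * C' + c * C) < n * ε :=
    lt_of_lt_of_le hN (mul_le_mul_of_nonneg_right hNn hε.le)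
  rw [Real.dist_eq, abs_lt]
  constructor
  · rw [lt_sub_iff_add_lt, lt_div_iff₀ hn']
    have h4 : (c:ℝ) * F n ≤ c * (c * n + C') := mul_le_mul_of_nonneg_left h1 hcc
    have h5 : (c:ℝ)^2 * n < D * ε / 2 * n := by
      apply mul_lt_mul_of_pos_right _ hn'
      linarith
    have h6 : ((c:ℝ) * C' + c * C) * (D+1) < n * ε / 2 * (D+1) := by
      apply mul_lt_mul_of_pos_right _ (by linarith)
      linarith
    have h7 : (c:ℝ) * C' ≤ c * C' * (D+1) := by
      have := mul_nonneg (mul_nonneg hcc hcC) hDD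
      linarith
    have h8 : (0:ℝ) < n * ε := by positivity
    have h9 : ((-ε + c) * n) * (D+1) < (F n : ℝ) * (D+1) := by
      nlinarith
    exact lt_of_mul_lt_mul_right h9 (by linarith)
  · rw [sub_lt_iff_lt_add, div_lt_iff₀ hn']
    have h4 : (0:ℝ) ≤ c * C' := mul_nonneg hcc hcC
    have h5 : (0:ℝ) ≤ c * C := mul_nonneg hcc hCC
    nlinarith

lemma fhat_spec {n d k : ℕ} {G0 : SimpleGraph (Fin n)} (h0 : Tolerant n d k G0) :
    (∃ G : SimpleGraph (Fin n), Tolerant n d k G ∧ G.edgeSet.ncard = fhat n d k) ∧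
    fhat n d k ≤ G0.edgeSet.ncard := by
  have hmem : G0.edgeSet.ncard ∈
      {m : ℕ | ∃ G : SimpleGraph (Fin n), Tolerant n d k G ∧ G.edgeSet.ncard = m} :=
    ⟨G0, h0, rfl⟩
  exact ⟨Nat.sInf_mem ⟨_, hmem⟩, Nat.sInf_le hmem⟩

lemma lim3 (k : ℕ) (hk : 1 ≤ k) :
    Tendsto (fun n : ℕ => phi n 3 k / n) atTop (𝓝 ((k:ℝ) / 2)) := by
  have h := tend (fun n => 2 * fhat n 3 k) (2 * k) 0 (k + 1)
    (by
      intro n hn
      have h1 := (fhat_spec (tol3 (n := n) hk (by omega))).2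
      have h2 := ds_eq (G3 n k)
      have h3 := ds3 n k
      omega)
    (by
      intro D
      refine ⟨Cst D k 1 k, fun n hn => ?_⟩
      obtain ⟨G, hG, hGe⟩ := (fhat_spec (tol3 (n := n) hk (by omega))).1
      have h1 := lower_one G D k (fun S hS u v hu hv => R_of_tol hk (by omega) hG S hS u v hu hv)
      have h2 := hub_card G D
      rw [ds_eq, hGe] at h1 h2
      rw [Fintype.card_fin] at h1
      have h3 := Nat.mul_le_mul_right (D+1) h1
      have h4 := Nat.mul_le_mul_left (2*k) h2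
      nlinarith)
  have h2 : Tendsto (fun n : ℕ => (1/2 : ℝ) * (((2 * fhat n 3 k : ℕ) : ℝ) / n) - k / 2) atTop
      (𝓝 ((1/2 : ℝ) * ((2 * k : ℕ) : ℝ) - k / 2)) := (h.const_mul _).sub_const _
  have h3 : (1/2 : ℝ) * ((2 * k : ℕ) : ℝ) - k / 2 = (k:ℝ) / 2 := by push_cast; ring
  rw [h3] at h2
  refine h2.congr' ?_
  filter_upwards [eventually_ge_atTop 1] with n hn
  have hn' : (n:ℝ) ≠ 0 := by positivity
  unfold phi
  push_cast
  field_simp

lemma lim4 (k : ℕ) (hk : 1 ≤ k) :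
    Tendsto (fun n : ℕ => phi n 4 k / n) atTop (𝓝 (1 / 2)) := by
  have h := tend (fun n => 2 * fhat n 4 k) (k + 1) (2 * (k * k)) (k + 1)
    (by
      intro n hn
      have h1 := (fhat_spec (tol4 (n := n) hk (by omega))).2
      have h2 := ds_eq (G4 n k)
      have h3 := ds4 n k hk
      omega)
    (by
      intro D
      refine ⟨Cst D k 2 k, fun n hn => ?_⟩
      obtain ⟨G, hG, hGe⟩ := (fhat_spec (tol4 (n := n) hk (by omega))).1
      have h1 := lower_two G D k hk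
        (fun S hS u v hu hv => R_of_tol hk (by omega) hG S hS u v hu hv)
      have h2 := hub_card G D
      rw [ds_eq, hGe] at h1 h2
      rw [Fintype.card_fin] at h1
      have h3 := Nat.mul_le_mul_right (D+1) h1
      have h4 := Nat.mul_le_mul_left (k + 1) h2
      nlinarith)
  have h2 : Tendsto (fun n : ℕ => (1/2 : ℝ) * (((2 * fhat n 4 k : ℕ) : ℝ) / n) - k / 2) atTop
      (𝓝 ((1/2 : ℝ) * ((k + 1 : ℕ) : ℝ) - k / 2)) := (h.const_mul _).sub_const _
  have h3 : (1/2 : ℝ) * ((k + 1 : ℕ) : ℝ) - k / 2 = 1 / 2 := by push_cast; ring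
  rw [h3] at h2
  refine h2.congr' ?_
  filter_upwards [eventually_ge_atTop 1] with n hn
  have hn' : (n:ℝ) ≠ 0 := by positivity
  unfold phi
  push_cast
  field_simp

end X146FD
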