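import Pool.Agent.X146.FD.Five

open Finset Classical Filter Topology

namespace X146FD

lemma sd_le {V : Type*} [Fintype V] (G : SimpleGraph V) (D : ℕ) : sd G D ≤ ds G := by
  unfold sd ds
  exact sum_le_sum_of_subset (subset_univ _)

lemma chain {V : Type*} [Fintype V] (G : SimpleGraph V) (q : ℕ → ℕ) (hq : ∀ i, q i ≤ q (i+1))
    (m : ℕ) : ∑ i ∈ range m, mid G (q i) (q (i+1)) + sd G (q m) = sd G (q 0) := by
  induction m with
  | zero => simp
  | succ m ih =>
    rw [sum_range_succ, Nat.add_assoc, mid_add G (hq m), ih]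

lemma exists_gap {V : Type*} [Fintype V] (G : SimpleGraph V) (q : ℕ → ℕ)
    (hq : ∀ i, q i ≤ q (i+1)) (m : ℕ) (hm : 1 ≤ m) :
    ∃ i < m, m * mid G (q i) (q (i+1)) ≤ ds G := by
  by_contra hcon
  push Not at hcon
  have h1 : ∑ i ∈ range m, ds G < ∑ i ∈ range m, m * mid G (q i) (q (i+1)) := by
    refine sum_lt_sum_of_nonempty ⟨0, mem_range.2 hm⟩ fun i hi => hcon i (mem_range.1 hi)
  rw [← mul_sum] at h1
  simp only [sum_const, card_range, smul_eq_mul] at h1
  have h2 := chain G q hq m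
  have h3 := sd_le G (q 0)
  have h4 : ∑ i ∈ range m, mid G (q i) (q (i+1)) ≤ ds G := by omega
  have h5 := Nat.mul_le_mul_left m h4
  omega

/-- The sequence of degree thresholds. -/
def qs (k E : ℕ) : ℕ → ℕ
  | 0 => 3 * (E + 1)
  | (i+1) => qs k E i + 3 * (E + 1) * C5 (qs k E i) k

lemma qs_mono (k E i : ℕ) : qs k E i ≤ qs k E (i+1) := Nat.le_add_right _ _

lemma qs_ge (k E i : ℕ) : 3 * (E + 1) ≤ qs k E i := by
  induction i with
  | zero => exact le_rfl
  | succ i ih => exact ih.trans (qs_mono k E i)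

lemma low5 {V : Type*} [Fintype V] (G : SimpleGraph V) (k E : ℕ) (hk : 1 ≤ k)
    (hn : k + 1 ≤ Fintype.card V)
    (hG : ∀ S : Finset V, S.card < k → ∀ u v, u ∉ S → v ∉ S → R G S 5 u v) :
    (k + 1) * Fintype.card V * (E + 1) ≤ ds G * (E + 1) + (k + 1) * ds G +
      (k + 1) * (k * ∑ i ∈ range (3 * (E + 1)), C5 (qs k E i) k) * (E + 1) := by
  obtain ⟨i, hi, hgap⟩ := exists_gap G (qs k E) (qs_mono k E) (3 * (E + 1)) (by omega)
  have h1 := lower5 G (qs k E i) (qs k E (i+1)) k hk hn (qs_mono k E i) hG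
  have h2 := hub_card G (qs k E i)
  have h3 := hub_card G (qs k E (i+1))
  have h4 := qs_ge k E i
  have h5 : 3 * (E + 1) * (hub G (qs k E i)).card ≤ ds G :=
    (Nat.mul_le_mul_right _ (by omega)).trans h2
  have h6 : 3 * (E + 1) * (C5 (qs k E i) k * (hub G (qs k E (i+1))).card) ≤ ds G := by
    refine le_trans ?_ h3
    rw [← Nat.mul_assoc]
    refine Nat.mul_le_mul_right _ ?_
    have : qs k E (i+1) = qs k E i + 3 * (E + 1) * C5 (qs k E i) k := rfl
    omega
  have h7 : C5 (qs k E i) k ≤ ∑ i ∈ range (3 * (E + 1)), C5 (qs k E i) k :=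
    single_le_sum (f := fun i => C5 (qs k E i) k) (fun _ _ => Nat.zero_le _) (mem_range.2 hi)
  have h8 : (E + 1) * ((hub G (qs k E i)).card + C5 (qs k E i) k * (hub G (qs k E (i+1))).card +
      mid G (qs k E i) (qs k E (i+1))) ≤ ds G := by nlinarith
  have h9 := Nat.mul_le_mul_right (E+1) h1
  have h10 := Nat.mul_le_mul_left (k+1) h8
  have h11 := Nat.mul_le_mul_left ((k+1) * k * (E+1)) h7
  nlinarith

lemma tol_mono {n d d' k : ℕ} (h : d ≤ d') {G : SimpleGraph (Fin n)} (hG : Tolerant n d k G) :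
    Tolerant n d' k G := fun S hS => (hG S hS).trans (by exact_mod_cast h)

/-- The general upper bound for distance at least four. -/
lemma upper4 (n d k : ℕ) (hd : 4 ≤ d) (hk : 1 ≤ k) (hn : k ≤ n) :
    2 * fhat n d k ≤ (k + 1) * n + 2 * (k * k) := by
  have h1 := (fhat_spec (tol_mono hd (tol4 (n := n) hk hn))).2
  have h2 := ds_eq (G4 n k)
  have h3 := ds4 n k hk
  omega

lemma phi_upper (n d k : ℕ) (hd : 4 ≤ d) (hk : 1 ≤ k) (hn : k ≤ n) :
    phi n d k ≤ (n : ℝ) / 2 + (k : ℝ) ^ 2 := by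
  have h : (2 : ℝ) * fhat n d k ≤ (k + 1) * n + 2 * (k * k) := by
    exact_mod_cast upper4 n d k hd hk hn
  unfold phi
  nlinarith

lemma lim5 (k : ℕ) (hk : 1 ≤ k) :
    Tendsto (fun n : ℕ => phi n 5 k / n) atTop (𝓝 (1 / 2)) := by
  have h := tend (fun n => 2 * fhat n 5 k) (k + 1) (2 * (k * k)) (k + 1)
    (by
      intro n hn
      exact upper4 n 5 k (by norm_num) hk (by omega))
    (by
      intro E
      refine ⟨k * ∑ i ∈ range (3 * (E + 1)), C5 (qs k E i) k, fun n hn => ?_⟩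
      obtain ⟨G, hG, hGe⟩ := (fhat_spec (tol_mono (by norm_num : 4 ≤ 5)
        (tol4 (n := n) hk (by omega)))).1
      have h1 := low5 G k E hk (by rw [Fintype.card_fin]; exact hn)
        (fun S hS u v hu hv => R_of_tol hk (by omega) hG S hS u v hu hv)
      rw [ds_eq, hGe] at h1
      rw [Fintype.card_fin] at h1
      exact h1)
  have h2 : Tendsto (fun n : ℕ => (1/2 : ℝ) * (((2 * fhat n 5 k : ℕ) : ℝ) / n) - k / 2) atTop
      (𝓝 ((1/2 : ℝ) * ((k + 1 : ℕ) : ℝ) - k / 2)) := (h.const_mul _).sub_const _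
  have h3 : (1/2 : ℝ) * ((k + 1 : ℕ) : ℝ) - k / 2 = 1 / 2 := by push_cast; ring
  rw [h3] at h2
  refine h2.congr' ?_
  filter_upwards [eventually_ge_atTop 1] with n hn
  have hn' : (n:ℝ) ≠ 0 := by positivity
  unfold phi
  push_cast
  field_simp

end X146FD
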