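import Pool.Agent.X146.FD.Limit5

open Finset Classical Filter Topology

namespace X146FD

variable {V : Type*} [Fintype V] (G : SimpleGraph V)

lemma mindeg' (d k : ℕ) (hn : k + 1 ≤ Fintype.card V)
    (hG : ∀ S : Finset V, S.card < k → ∀ u v, u ∉ S → v ∉ S → R G S d u v) (x : V) :
    k ≤ (nb G x).card := by
  by_contra hlt
  push Not at hlt
  have h1 : (insert x (nb G x)).card ≤ k := (card_insert_le _ _).trans hlt
  obtain ⟨v, hv⟩ : ∃ v, v ∉ insert x (nb G x) := by
    by_contra hcon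
    push Not at hcon
    have : (univ : Finset V) ⊆ insert x (nb G x) := fun v _ => hcon v
    have := card_le_card this
    rw [card_univ] at this
    omega
  rw [mem_insert, not_or] at hv
  rcases R_mono G (nb G x) (Nat.le_succ d) (hG (nb G x) hlt x v (by simp [nb]) hv.2) with
    h | ⟨z, h2, h3, -⟩
  · exact hv.1 h.symm
  · exact h3 ((mem_nb G).2 h2)

/-- going back from `y`: either the start is reached, or a hub -/
lemma back (D m : ℕ) (y z : V) (hy : y ∉ hub G D) (hR : R G ∅ m z y) :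
    z ∈ loc G D ∅ y m ∨ ∃ h ∈ hub G D, h ∈ loc G D ∅ y m := by
  induction m generalizing z with
  | zero => simp only [R] at hR; subst hR; exact Or.inl (by simp [loc])
  | succ m ih =>
    rcases hR with hR | ⟨z', h1, -, h3⟩
    · subst hR
      exact Or.inl (loc_mono G D _ _ (Nat.zero_le _) (by simp [loc]))
    · rcases ih z' h3 with h4 | ⟨h, h4, h5⟩
      · by_cases h5 : z' ∈ hub G D
        · exact Or.inr ⟨z', h5, loc_mono_succ G D _ _ _ h4⟩
        · exact Or.inl (loc_step G D _ _ m h4 h5 h1.symm (by simp))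
      · exact Or.inr ⟨h, h4, loc_mono_succ G D _ _ _ h5⟩

/-- Non-hubs without hub within `r` steps. -/
noncomputable def Far (D r : ℕ) : Finset V :=
  univ.filter (fun x => x ∉ hub G D ∧ ∀ h ∈ loc G D ∅ x r, h ∉ hub G D)

lemma far_pair (D d r : ℕ) (hdr : d ≤ 2 * r + 1) (x y : V) (hx : x ∈ Far G D r)
    (hy : y ∈ Far G D r) (m i : ℕ) (u : V) (hu : u ∈ loc G D ∅ x i) (hu2 : u ∉ hub G D)
    (hR : R G ∅ m u y) (him : i + m ≤ d) : y ∈ loc G D ∅ x d := by
  rw [Far, mem_filter] at hx hy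
  induction m generalizing i u with
  | zero =>
    simp only [R] at hR
    subst hR
    exact loc_mono G D _ x (by omega) hu
  | succ m ih =>
    rcases hR with hR | ⟨z, h1, -, h3⟩
    · subst hR
      exact loc_mono G D _ x (by omega) hu
    · have hz : z ∈ loc G D ∅ x (i+1) := loc_step G D ∅ x i hu hu2 h1 (by simp)
      by_cases hzh : z ∈ hub G D
      · exfalso
        have hir : r ≤ i := by
          by_contra hlt
          exact hx.2.2 z (loc_mono G D ∅ x (by omega) hz) hzh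
        have hm : m ≤ r := by omega
        rcases back G D m y z hy.2.1 h3 with h4 | ⟨h, h4, h5⟩
        · exact hy.2.2 z (loc_mono G D ∅ y hm h4) hzh
        · exact hy.2.2 h (loc_mono G D ∅ y hm h5) h4
      · exact ih (i+1) z hz hzh h3 (by omega)

lemma far_card (D d r k : ℕ) (hk : 1 ≤ k) (hdr : d ≤ 2 * r + 1)
    (hG : ∀ S : Finset V, S.card < k → ∀ u v, u ∉ S → v ∉ S → R G S d u v) :
    (Far G D r).card ≤ (D+1)^d := by
  rcases (Far G D r).eq_empty_or_nonempty with he | ⟨x, hx⟩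
  · rw [he]; simp
  · refine (card_le_card ?_).trans (loc_card G D ∅ x d)
    intro y hy
    have hx' := hx
    rw [Far, mem_filter] at hx'
    exact far_pair G D d r hdr x y hx hy d 0 x (by simp [loc]) hx'.2.1
      (hG ∅ (by rw [card_empty]; exact hk) x y (by simp) (by simp)) (by omega)

lemma front (D m : ℕ) (x h : V) (hh : h ∈ loc G D ∅ x (m+1)) (hne : h ≠ x) :
    ∃ z, G.Adj x z ∧ h ∈ loc G D ∅ z m := by
  induction m generalizing h with
  | zero =>
    rcases loc_one G hh with h1 | ⟨h1, -⟩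
    · exact absurd h1 hne
    · exact ⟨h, h1, by simp [loc]⟩
  | succ m ih =>
    rw [loc_succ, mem_union] at hh
    rcases hh with hh | hh
    · obtain ⟨z, h1, h2⟩ := ih h hh hne
      exact ⟨z, h1, loc_mono_succ G D _ _ _ h2⟩
    · rw [Finset.mem_sdiff, mem_biUnion] at hh
      obtain ⟨⟨u, hu, hu3⟩, -⟩ := hh
      rw [Finset.mem_sdiff] at hu
      rw [mem_nb] at hu3
      by_cases hux : u = x
      · subst hux
        exact ⟨h, hu3, loc_mono G D _ _ (Nat.zero_le _) (by simp [loc])⟩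
      · obtain ⟨z, h1, h2⟩ := ih u hu.1 hux
        exact ⟨z, h1, loc_step G D _ _ m h2 hu.2 hu3 (by simp)⟩

/-- excess charge of a vertex -/
noncomputable def chi (D k : ℕ) (x : V) : ℕ := a G D x + ((nb G x).card - k)

noncomputable def rich (D k : ℕ) : Finset V := ((hub G D)ᶜ).filter (fun x => 1 ≤ chi G D k x)

noncomputable def poor (D k : ℕ) : Finset V := ((hub G D)ᶜ).filter (fun x => chi G D k x = 0)

noncomputable def U (D k : ℕ) : ℕ → Finset V
  | 0 => rich G D k
  | (j+1) => ((U D k j).biUnion (nb G)) ∩ poor G D k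

lemma U_cover (D k : ℕ) (m : ℕ) (x : V) (hx : x ∉ hub G D)
    (h : ∃ h ∈ hub G D, h ∈ loc G D ∅ x (m+1)) : ∃ j ≤ m, x ∈ U G D k j := by
  induction m generalizing x with
  | zero =>
    obtain ⟨h, h1, h2⟩ := h
    rcases loc_one G h2 with h3 | ⟨h3, -⟩
    · exact absurd (h3 ▸ h1) hx
    · refine ⟨0, le_rfl, ?_⟩
      rw [U, rich, mem_filter, mem_compl]
      refine ⟨hx, ?_⟩
      have : 0 < (nb G x ∩ hub G D).card := card_pos.2 ⟨h, mem_inter.2 ⟨(mem_nb G).2 h3, h1⟩⟩
      unfold chi a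
      omega
  | succ m ih =>
    obtain ⟨h, h1, h2⟩ := h
    rcases Nat.eq_zero_or_pos (chi G D k x) with h0 | h0
    · have hne : h ≠ x := fun h' => hx (h' ▸ h1)
      obtain ⟨z, h3, h4⟩ := front G D (m+1) x h h2 hne
      have hz : z ∉ hub G D := by
        intro hz
        have : 0 < (nb G x ∩ hub G D).card := card_pos.2 ⟨z, mem_inter.2 ⟨(mem_nb G).2 h3, hz⟩⟩
        unfold chi a at h0
        omega
      obtain ⟨j, hj, hzj⟩ := ih z hz ⟨h, h1, h4⟩
      refine ⟨j+1, by omega, ?_⟩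
      rw [U, mem_inter, mem_biUnion, poor, mem_filter, mem_compl]
      exact ⟨⟨z, hzj, (mem_nb G).2 h3.symm⟩, hx, h0⟩
    · refine ⟨0, Nat.zero_le _, ?_⟩
      rw [U, rich, mem_filter, mem_compl]
      exact ⟨hx, h0⟩

/-- total charge -/
noncomputable def Q (D k : ℕ) : ℕ := ∑ x ∈ (hub G D)ᶜ, chi G D k x

lemma U_card (D k : ℕ) (hdeg : ∀ x, k ≤ (nb G x).card) (j : ℕ) :
    (U G D k 0).card ≤ Q G D k ∧ (U G D k (j+1)).card ≤ (k+1) * k^j * Q G D k := by
  have hQ : ∑ x ∈ rich G D k, chi G D k x ≤ Q G D k :=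
    sum_le_sum_of_subset (filter_subset _ _)
  constructor
  · refine le_trans ?_ hQ
    calc (U G D k 0).card = ∑ _x ∈ rich G D k, 1 := by simp [U]
      _ ≤ _ := sum_le_sum fun x hx => (mem_filter.1 hx).2
  · induction j with
    | zero =>
      have h1 : (U G D k (0+1)).card ≤ ∑ x ∈ rich G D k, (nb G x).card := by
        refine (card_le_card (show U G D k (0+1) ⊆ (rich G D k).biUnion (nb G) from
          inter_subset_left)).trans card_biUnion_le
      refine h1.trans ?_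
      calc ∑ x ∈ rich G D k, (nb G x).card ≤ ∑ x ∈ rich G D k, (k+1) * chi G D k x := by
            refine sum_le_sum fun x hx => ?_
            have h2 := (mem_filter.1 hx).2
            have h3 := hdeg x
            have h4 : (nb G x).card ≤ k + chi G D k x := by unfold chi; omega
            nlinarith
        _ = (k+1) * ∑ x ∈ rich G D k, chi G D k x := (mul_sum _ _ _).symm
        _ ≤ (k+1) * Q G D k := Nat.mul_le_mul_left _ hQ
        _ = (k+1) * k^0 * Q G D k := by ring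
    | succ j ih =>
      have h1 : (U G D k (j+1+1)).card ≤ (U G D k (j+1)).card * k := by
        refine (card_le_card (show U G D k (j+1+1) ⊆ (U G D k (j+1)).biUnion (nb G) from
          inter_subset_left)).trans (card_biUnion_le_card_mul _ _ k ?_)
        intro x hx
        have h2 : x ∈ poor G D k := (mem_inter.1 hx).2
        rw [poor, mem_filter] at h2
        have h3 := h2.2
        unfold chi at h3
        omega
      refine h1.trans ((Nat.mul_le_mul_right _ ih).trans (le_of_eq ?_))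
      ring

/-- the denominator -/
def Kc (k r : ℕ) : ℕ := 1 + (k+1) * ∑ i ∈ range (r-1), k^i

lemma low_card (D d r k : ℕ) (hk : 1 ≤ k) (hr : 1 ≤ r) (hdr : d ≤ 2 * r + 1)
    (hn : k + 1 ≤ Fintype.card V)
    (hG : ∀ S : Finset V, S.card < k → ∀ u v, u ∉ S → v ∉ S → R G S d u v) :
    ((hub G D)ᶜ).card ≤ (D+1)^d + Kc k r * Q G D k := by
  have hdeg := mindeg' G d k hn hG
  have hsub : (hub G D)ᶜ ⊆ Far G D r ∪ (range r).biUnion (U G D k) := by
    intro x hx
    rw [mem_compl] at hx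
    by_cases hf : x ∈ Far G D r
    · exact mem_union_left _ hf
    · rw [Far, mem_filter] at hf
      push Not at hf
      obtain ⟨h, h1, h2⟩ := hf (mem_univ _) hx
      obtain ⟨r', rfl⟩ : ∃ r', r = r' + 1 := ⟨r-1, by omega⟩
      obtain ⟨j, hj, hxj⟩ := U_cover G D k r' x hx ⟨h, h2, h1⟩
      exact mem_union_right _ (mem_biUnion.2 ⟨j, mem_range.2 (by omega), hxj⟩)
  refine (card_le_card hsub).trans ((card_union_le _ _).trans
    (Nat.add_le_add (far_card G D d r k hk hdr hG) ?_))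
  refine card_biUnion_le.trans ?_
  obtain ⟨r', rfl⟩ : ∃ r', r = r' + 1 := ⟨r-1, by omega⟩
  rw [sum_range_succ']
  have h1 : ∑ j ∈ range r', (U G D k (j+1)).card ≤ ∑ j ∈ range r', (k+1) * k^j * Q G D k :=
    sum_le_sum fun j _ => (U_card G D k hdeg j).2
  have h2 := (U_card G D k hdeg 0).1
  have h3 : ∑ j ∈ range r', (k+1) * k^j * Q G D k = (k+1) * (∑ i ∈ range r', k^i) * Q G D k := by
    rw [mul_sum, sum_mul]
  rw [h3] at h1
  unfold Kc
  rw [Nat.add_sub_cancel]
  calc _ ≤ (k+1) * (∑ i ∈ range r', k^i) * Q G D k + Q G D k := Nat.add_le_add h1 h2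
    _ = _ := by ring

lemma ds_ge (D k : ℕ) (hdeg : ∀ x, k ≤ (nb G x).card) :
    k * ((hub G D)ᶜ).card + Q G D k ≤ ds G := by
  have e1 : ds G = ∑ v ∈ hub G D, (nb G v).card + ∑ v ∈ (hub G D)ᶜ, (nb G v).card := by
    unfold ds; rw [sum_add_sum_compl]
  have e2 : ∑ v ∈ (hub G D)ᶜ, a G D v ≤ ∑ v ∈ hub G D, (nb G v).card := by
    unfold a
    rw [dc]
    exact sum_le_sum fun v _ => card_le_card inter_subset_left
  have e3 : k * ((hub G D)ᶜ).card + Q G D k =
      ∑ v ∈ (hub G D)ᶜ, a G D v + ∑ v ∈ (hub G D)ᶜ, (nb G v).card := by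
    have : k * ((hub G D)ᶜ).card = ∑ _v ∈ (hub G D)ᶜ, k := by simp [mul_comm]
    rw [this]
    unfold Q
    rw [← sum_add_distrib, ← sum_add_distrib]
    refine sum_congr rfl fun v _ => ?_
    have := hdeg v
    unfold chi
    omega
  omega

lemma lowerAll (D d r k : ℕ) (hk : 1 ≤ k) (hr : 1 ≤ r) (hdr : d ≤ 2 * r + 1)
    (hn : k + 1 ≤ Fintype.card V)
    (hG : ∀ S : Finset V, S.card < k → ∀ u v, u ∉ S → v ∉ S → R G S d u v) :
    (k * Kc k r + 1) * Fintype.card V ≤
      Kc k r * ds G + (D+1)^d + (k * Kc k r + 1) * (hub G D).card := by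
  have hdeg := mindeg' G d k hn hG
  have h1 := low_card G D d r k hk hr hdr hn hG
  have h2 := ds_ge G D k hdeg
  have h3 : (hub G D).card + ((hub G D)ᶜ).card = Fintype.card V := card_add_card_compl _
  have h4 := Nat.mul_le_mul_left (Kc k r) h2
  rw [← h3]
  nlinarith

lemma phi_lower (d k : ℕ) (hk : 1 ≤ k) (hd : 3 ≤ d) (ε : ℝ) (hε : 0 < ε) :
    ∀ᶠ n : ℕ in atTop, (1 / (2 * (Kc k (d/2) : ℝ)) - ε) * n ≤ phi n d k := by
  have hK : (0:ℝ) < Kc k (d/2) := by
    have : 0 < Kc k (d/2) := by unfold Kc; omega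
    exact_mod_cast this
  set K : ℝ := ((Kc k (d/2) : ℕ) : ℝ) with hKdef
  obtain ⟨D, hD⟩ := exists_nat_gt ((k * K + 1) * (2 * k) / (K * ε))
  obtain ⟨N, hN⟩ := exists_nat_gt ((((D+1)^d : ℕ) : ℝ) / (K * ε))
  filter_upwards [eventually_ge_atTop (max N (k+1))] with n hn
  have hnN : N ≤ n := (le_max_left _ _).trans hn
  have hnk : k + 1 ≤ n := (le_max_right _ _).trans hn
  obtain ⟨⟨G, hG, hGe⟩, hup⟩ := fhat_spec (tol_mono hd (tol3 (n := n) hk (by omega)))
  have hds3 := ds3 n k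
  rw [ds_eq] at hds3
  have h1 := lowerAll G D d (d/2) k hk (by omega) (by omega) (by rw [Fintype.card_fin]; exact hnk)
    (fun S hS u v hu hv => R_of_tol hk hnk hG S hS u v hu hv)
  have h2 := hub_card G D
  rw [ds_eq, hGe] at h1 h2
  rw [Fintype.card_fin] at h1
  have h3 : 2 * fhat n d k ≤ 2 * k * n := by omega
  have h1' : ((k:ℝ) * K + 1) * n ≤ K * (2 * fhat n d k) + (((D+1)^d : ℕ) : ℝ) +
      (k * K + 1) * (hub G D).card := by
    have := (Nat.cast_le (α := ℝ)).2 h1
    push_cast at this ⊢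
    exact this
  have h2' : ((D:ℝ) + 1) * (hub G D).card ≤ 2 * fhat n d k := by exact_mod_cast h2
  have h3' : (2:ℝ) * fhat n d k ≤ 2 * k * n := by exact_mod_cast h3
  have hKe : 0 < K * ε := mul_pos hK hε
  rw [div_lt_iff₀ hKe] at hD hN
  have hnN' : (N:ℝ) ≤ n := by exact_mod_cast hnN
  have hn0 : (0:ℝ) ≤ n := Nat.cast_nonneg _
  have h4 : (((D+1)^d : ℕ) : ℝ) ≤ n * (K * ε) :=
    hN.le.trans (mul_le_mul_of_nonneg_right hnN' hKe.le)
  -- hub bound
  have hD0 : (0:ℝ) < (D:ℝ) + 1 := by positivity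
  have h5 : ((k:ℝ) * K + 1) * (hub G D).card ≤ n * (K * ε) := by
    have hkK : (0:ℝ) ≤ k * K + 1 := by positivity
    have h6 : ((k:ℝ) * K + 1) * (((D:ℝ) + 1) * (hub G D).card) ≤ (k * K + 1) * (2 * k * n) :=
      mul_le_mul_of_nonneg_left (h2'.trans h3') hkK
    have h7 : ((k:ℝ) * K + 1) * (2 * k) * n ≤ D * (K * ε) * n :=
      mul_le_mul_of_nonneg_right hD.le hn0
    have h8 : ((D:ℝ) + 1) * (((k:ℝ) * K + 1) * (hub G D).card) ≤ (D + 1) * (n * (K * ε)) := by
      nlinarith [mul_nonneg hn0 hKe.le]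
    exact le_of_mul_le_mul_left h8 hD0
  unfold phi
  have h9 : ((k:ℝ) * K + 1) * n ≤ K * (2 * fhat n d k) + 2 * (n * (K * ε)) := by linarith
  have h10 : (1 / (2 * K) - ε) * n = ((k:ℝ) * K + 1) * n / (2 * K) - n * ε - k * n / 2 := by
    field_simp
    ring
  rw [h10]
  have h11 : ((k:ℝ) * K + 1) * n / (2 * K) ≤ fhat n d k + n * ε := by
    rw [div_le_iff₀ (by positivity)]
    nlinarith
  linarith

end X146FD
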