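import Pool.Agent.X146.FD.LowerAll

open Finset Classical

namespace X146FD

section General
variable {V : Type*} (G : SimpleGraph V)

lemma edist_of_R (S : Finset V) (m : ℕ) (u v : V) (hu : u ∉ S) (hv : v ∉ S)
    (h : R G S m u v) : (G.induce {x : V | x ∉ S}).edist ⟨u, hu⟩ ⟨v, hv⟩ ≤ (m : ℕ∞) := by
  induction m generalizing u with
  | zero =>
    simp only [R] at h
    subst h
    simp
  | succ m ih =>
    rcases h with h | ⟨z, h1, h2, h3⟩
    · subst h
      simp
    · have e2 := ih z h2 h3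
      have e0 : (G.induce {x : V | x ∉ S}).Adj ⟨u, hu⟩ ⟨z, h2⟩ := h1
      have e1 : (G.induce {x : V | x ∉ S}).edist ⟨u, hu⟩ ⟨z, h2⟩ ≤ 1 :=
        SimpleGraph.edist_le e0.toWalk
      refine (SimpleGraph.edist_triangle (v := (⟨z, h2⟩ : {x : V | x ∉ S}))).trans
        ((add_le_add e1 e2).trans (le_of_eq ?_))
      push_cast
      rw [add_comm]

lemma R_trans (S : Finset V) (m m' : ℕ) (u v w : V) (h : R G S m u v) (h' : R G S m' v w) :
    R G S (m + m') u w := by
  induction m generalizing u with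
  | zero =>
    simp only [R] at h
    subst h
    simpa using h'
  | succ m ih =>
    rcases h with h | ⟨z, h1, h2, h3⟩
    · subst h
      exact R_mono G S (by omega) h'
    · rw [Nat.succ_add]
      exact Or.inr ⟨z, h1, h2, ih z h3⟩

lemma R_one (S : Finset V) (u v : V) (h : G.Adj u v) (hv : v ∉ S) : R G S 1 u v :=
  Or.inr ⟨v, h, hv, rfl⟩

lemma R_symm (S : Finset V) (m : ℕ) (u v : V) (hu : u ∉ S) (h : R G S m u v) : R G S m v u := by
  induction m generalizing u with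
  | zero => simp only [R] at h ⊢; exact h.symm
  | succ m ih =>
    rcases h with h | ⟨z, h1, h2, h3⟩
    · exact Or.inl h.symm
    · exact R_trans G S m 1 v z u (ih z h2 h3) (R_one G S z u h1.symm hu)

lemma R_comap {W : Type*} (e : W ≃ V) (S : Finset W) (m : ℕ) (u v : W)
    (h : R G (S.image e) m (e u) (e v)) : R (G.comap e) S m u v := by
  induction m generalizing u with
  | zero => exact e.injective h
  | succ m ih =>
    rcases h with h | ⟨z, h1, h2, h3⟩
    · exact Or.inl (e.injective h)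
    · obtain ⟨z', rfl⟩ := e.surjective z
      exact Or.inr ⟨z', h1, fun h4 => h2 (mem_image_of_mem e h4), ih z' h3⟩

end General

/-- number of nodes of depth less than `s` in the `q`-ary tree -/
def Nn (q : ℕ) : ℕ → ℕ
  | 0 => 0
  | (s+1) => q * Nn q s + 1

/-- `x` is the parent of `y` -/
def P (q x y : ℕ) : Prop := y ≠ 0 ∧ x = (y - 1) / q

lemma P_irrefl (q x : ℕ) : ¬ P q x x := by
  rintro ⟨h1, h2⟩
  have := Nat.div_le_self (x-1) q
  omega

abbrev TV (B k N r : ℕ) : Type := (Fin B × Fin k × Fin N) ⊕ Fin r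

def tadj (B k N r q L : ℕ) : TV B k N r → TV B k N r → Prop
  | Sum.inl (b, i, v), Sum.inl (b', i', v') =>
      b = b' ∧ ((i = i' ∧ (P q v.1 v'.1 ∨ P q v'.1 v.1)) ∨ (i ≠ i' ∧ v = v' ∧ L ≤ v.1))
  | Sum.inl (_, i, v), Sum.inr h => v.1 = 0 ∧ h.1 = i.1
  | Sum.inr h, Sum.inl (_, i, v) => v.1 = 0 ∧ h.1 = i.1
  | Sum.inr h, Sum.inr h' => h ≠ h' ∧ (h.1 < k ∨ h'.1 < k)

def TG (B k N r q L : ℕ) : SimpleGraph (TV B k N r) where
  Adj := tadj B k N r q L
  symm := ⟨by
    rintro (⟨b, i, v⟩ | h) (⟨b', i', v'⟩ | h') hh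
    · obtain ⟨h1, h2⟩ := hh
      refine ⟨h1.symm, ?_⟩
      rcases h2 with ⟨h2, h3⟩ | ⟨h2, h3, h4⟩
      · exact Or.inl ⟨h2.symm, h3.symm⟩
      · exact Or.inr ⟨fun h => h2 h.symm, h3.symm, h3 ▸ h4⟩
    · exact hh
    · exact hh
    · exact ⟨hh.1.symm, hh.2.symm⟩⟩
  loopless := ⟨by
    rintro (⟨b, i, v⟩ | h) hh
    · rcases hh.2 with ⟨_, h3 | h3⟩ | ⟨h3, _⟩
      · exact P_irrefl _ _ h3
      · exact P_irrefl _ _ h3
      · exact h3 rfl
    · exact hh.1 rfl⟩

def DD (q x : ℕ) : ℕ := q * x + 1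

lemma DD_ge (q x : ℕ) (hq : 1 ≤ q) : x < DD q x := by
  unfold DD
  have := Nat.mul_le_mul_right x hq
  omega

lemma DD_iter_ge (q : ℕ) (hq : 1 ≤ q) (m x : ℕ) : x ≤ (DD q)^[m] x := by
  induction m generalizing x with
  | zero => simp
  | succ m ih =>
    rw [Function.iterate_succ_apply]
    exact (DD_ge q x hq).le.trans (ih _)

lemma DD_inj (q : ℕ) (hq : 1 ≤ q) : Function.Injective (DD q) := by
  intro x y h
  unfold DD at h
  have h1 : q * x = q * y := by omega
  exact Nat.eq_of_mul_eq_mul_left hq h1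

lemma chain_aux (q : ℕ) (hq : 1 ≤ q) (v c c' : ℕ) (h2 : c ≤ q * v + q)
    (h3 : q * v + 1 ≤ c') (m n : ℕ) (h : (DD q)^[m] c = (DD q)^[m + (n+1)] c') : False := by
  rw [Function.iterate_add_apply] at h
  have h5 := (DD_inj q hq).iterate m h
  rw [Function.iterate_succ_apply] at h5
  have h6 := DD_iter_ge q hq n (DD q c')
  have h7 : q * (q * v + 1) ≤ q * c' := Nat.mul_le_mul_left q h3
  have h8 : q * v ≤ q * (q * v) := by
    have := Nat.mul_le_mul_right (q * v) hq
    omega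
  rw [← h5] at h6
  unfold DD at h6
  rw [Nat.mul_add] at h7
  omega

lemma chain_inj (q : ℕ) (hq : 1 ≤ q) (v c c' : ℕ) (h1 : q * v + 1 ≤ c) (h2 : c ≤ q * v + q)
    (h3 : q * v + 1 ≤ c') (h4 : c' ≤ q * v + q) (m m' : ℕ)
    (h : (DD q)^[m] c = (DD q)^[m'] c') : c = c' := by
  rcases lt_trichotomy m m' with hm | hm | hm
  · obtain ⟨n, rfl⟩ : ∃ n, m' = m + (n+1) := ⟨m' - m - 1, by omega⟩
    exact (chain_aux q hq v c c' h2 h3 m n h).elim
  · subst hm
    exact (DD_inj q hq).iterate m h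
  · obtain ⟨n, rfl⟩ : ∃ n, m = m' + (n+1) := ⟨m - m' - 1, by omega⟩
    exact (chain_aux q hq v c' c h4 h1 m' n h.symm).elim

section Tree
variable (B q t r : ℕ) (hq : 1 ≤ q) (hr : q + 1 ≤ r)

/-- the graph -/
abbrev T : SimpleGraph (TV B (q+1) (Nn q (t+1)) r) := TG B (q+1) (Nn q (t+1)) r q (Nn q t)

def hb (j : Fin (q+1)) : TV B (q+1) (Nn q (t+1)) r := Sum.inr ⟨j.1, by omega⟩

include hq in
lemma up (S : Finset (TV B (q+1) (Nn q (t+1)) r)) (b : Fin B) (j : Fin (q+1))
    (hj : hb B q t r hr j ∉ S) (s : ℕ) (x : Fin (Nn q (t+1))) (hx : x.1 < Nn q (s+1))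
    (hS : ∀ w : Fin (Nn q (t+1)), w.1 < x.1 → (Sum.inl (b, j, w) : TV _ _ _ _) ∉ S) :
    R (T B q t r) S (s+1) (Sum.inl (b, j, x)) (hb B q t r hr j) := by
  induction s generalizing x with
  | zero =>
    have : x.1 = 0 := by
      simp only [Nn] at hx
      omega
    exact R_one _ S _ _ ⟨this, rfl⟩ hj
  | succ s ih =>
    by_cases h0 : x.1 = 0
    · exact R_mono _ S (by omega) (R_one _ S _ _ (show (T B q t r).Adj _ _ from ⟨h0, rfl⟩) hj)
    · have h1 : (x.1 - 1) / q ≤ x.1 - 1 := Nat.div_le_self _ _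
      have h2 : (x.1 - 1) / q < Nn q (s+1) := by
        apply Nat.div_lt_of_lt_mul
        have : Nn q (s+1+1) = q * Nn q (s+1) + 1 := rfl
        omega
      have hxlt := x.2
      let y : Fin (Nn q (t+1)) := ⟨(x.1 - 1) / q, by omega⟩
      have hy : y.1 < x.1 := by
        show (x.1 - 1) / q < x.1
        omega
      refine Or.inr ⟨Sum.inl (b, j, y), ⟨rfl, Or.inl ⟨rfl, Or.inr ⟨h0, rfl⟩⟩⟩, hS y hy, ?_⟩
      exact ih y h2 (fun w hw => hS w (lt_trans hw hy))

include hq in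
lemma down (S : Finset (TV B (q+1) (Nn q (t+1)) r)) (b : Fin B) (i : Fin (q+1)) (m s : ℕ)
    (hsm : s + m = t) (x : Fin (Nn q (t+1))) (hx1 : Nn q s ≤ x.1) (hx2 : x.1 < Nn q (s+1))
    (hS : ∀ w : Fin (Nn q (t+1)), (∃ m', w.1 = (DD q)^[m'] x.1) →
      (Sum.inl (b, i, w) : TV _ _ _ _) ∉ S) :
    ∃ y : Fin (Nn q (t+1)), Nn q t ≤ y.1 ∧
      R (T B q t r) S m (Sum.inl (b, i, x)) (Sum.inl (b, i, y)) := by
  induction m generalizing s x with
  | zero =>
    have : s = t := by omega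
    subst this
    exact ⟨x, hx1, rfl⟩
  | succ m ih =>
    have e1 : Nn q (s+1) = q * Nn q s + 1 := rfl
    have e2 : Nn q (s+1+1) = q * Nn q (s+1) + 1 := rfl
    have h1 : Nn q (s+1) ≤ DD q x.1 := by
      unfold DD
      have := Nat.mul_le_mul_left q hx1
      omega
    have h2 : DD q x.1 < Nn q (s+1+1) := by
      unfold DD
      have := Nat.mul_le_mul_left q (Nat.succ_le_of_lt hx2)
      rw [Nat.mul_succ] at this
      omega
    have hmono : ∀ c d : ℕ, c ≤ d → Nn q c ≤ Nn q d := by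
      intro c d hcd
      induction hcd with
      | refl => exact le_rfl
      | step _ ih =>
        refine ih.trans ?_
        have := Nat.mul_le_mul_right (Nn q (by assumption)) hq
        simp only [Nn]
        omega
    have h3 : DD q x.1 < Nn q (t+1) := lt_of_lt_of_le h2 (hmono _ _ (by omega))
    let z : Fin (Nn q (t+1)) := ⟨DD q x.1, h3⟩
    obtain ⟨y, hy1, hy2⟩ := ih (s+1) (by omega) z h1 h2 (by
      rintro w ⟨m', hm'⟩
      exact hS w ⟨m'+1, by rw [Function.iterate_succ_apply]; exact hm'⟩)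
    refine ⟨y, hy1, Or.inr ⟨Sum.inl (b, i, z), ⟨rfl, Or.inl ⟨rfl, Or.inl ⟨?_, ?_⟩⟩⟩, ?_, hy2⟩⟩
    · show DD q x.1 ≠ 0
      unfold DD
      omega
    · show x.1 = (DD q x.1 - 1) / q
      unfold DD
      rw [Nat.add_sub_cancel, Nat.mul_div_cancel_left _ hq]
    · exact hS z ⟨1, rfl⟩

/-- the number of the child of `v` for the route to the hub `j` -/
def cc (q i v j : ℕ) : ℕ := q * v + 1 + (if j < i then j else j - 1)

/-- the vertices of the route from `(b,i,v)` to the hub `j` -/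
def Rt (b : Fin B) (i : Fin (q+1)) (v : Fin (Nn q (t+1))) (j : Fin (q+1)) :
    TV B (q+1) (Nn q (t+1)) r → Prop
  | Sum.inr h => h.1 = j.1
  | Sum.inl (b0, i0, w) => b0 = b ∧ ((i0 = i ∧ j = i ∧ w.1 < v.1) ∨ (i0 = j ∧ j ≠ i) ∨
      (i0 = i ∧ j ≠ i ∧ ∃ m, w.1 = (DD q)^[m] (cc q i.1 v.1 j.1)))

lemma cc_bd (i v j : ℕ) (hi : i < q + 1) (hj : j < q + 1) (hij : j ≠ i) :
    q * v + 1 ≤ cc q i v j ∧ cc q i v j ≤ q * v + q := by
  unfold cc
  split_ifs <;> omega

include hq in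
lemma Rt_disj (b : Fin B) (i : Fin (q+1)) (v : Fin (Nn q (t+1))) (j j' : Fin (q+1))
    (x : TV B (q+1) (Nn q (t+1)) r) (h : Rt B q t r b i v j x) (h' : Rt B q t r b i v j' x) :
    j = j' := by
  rcases x with ⟨b0, i0, w⟩ | x
  · obtain ⟨-, h⟩ := h
    obtain ⟨-, h'⟩ := h'
    have hlt : ∀ j : Fin (q+1), j ≠ i → ∀ m, v.1 < (DD q)^[m] (cc q i.1 v.1 j.1) := by
      intro j hj m
      have h1 := (cc_bd q i.1 v.1 j.1 i.2 j.2 (fun h => hj (Fin.ext h))).1
      have h2 := DD_iter_ge q hq m (cc q i.1 v.1 j.1)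
      have h3 := Nat.mul_le_mul_right v.1 hq
      omega
    rcases h with ⟨h1, h2, h3⟩ | ⟨h1, h2⟩ | ⟨h1, h2, m, h3⟩
    · rcases h' with ⟨h4, h5, h6⟩ | ⟨h4, h5⟩ | ⟨h4, h5, m', h6⟩
      · rw [h2, h5]
      · exact absurd (h4.symm.trans h1) h5
      · have := hlt j' h5 m'
        omega
    · rcases h' with ⟨h4, h5, h6⟩ | ⟨h4, h5⟩ | ⟨h4, h5, m', h6⟩
      · exact absurd (h1.symm.trans h4) h2
      · exact h1.symm.trans h4
      · exact absurd (h1.symm.trans h4) h2
    · rcases h' with ⟨h4, h5, h6⟩ | ⟨h4, h5⟩ | ⟨h4, h5, m', h6⟩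
      · have := hlt j h2 m
        omega
      · exact absurd (h4.symm.trans h1) h5
      · have b1 := cc_bd q i.1 v.1 j.1 i.2 j.2 (fun h => h2 (Fin.ext h))
        have b2 := cc_bd q i.1 v.1 j'.1 i.2 j'.2 (fun h => h5 (Fin.ext h))
        have h7 := chain_inj q hq v.1 _ _ b1.1 b1.2 b2.1 b2.2 m m' (h3.symm.trans h6)
        have n1 : j.1 ≠ i.1 := fun h => h2 (Fin.ext h)
        have n2 : j'.1 ≠ i.1 := fun h => h5 (Fin.ext h)
        apply Fin.ext
        unfold cc at h7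
        split_ifs at h7 <;> omega
  · exact Fin.ext (h.symm.trans h')

lemma pigeon {α : Type*} (S : Finset α) (k : ℕ) (hS : S.card < k) (Rr : Fin k → α → Prop)
    (hdis : ∀ j j' x, Rr j x → Rr j' x → j = j') : ∃ j, ∀ s ∈ S, ¬ Rr j s := by
  by_contra hcon
  push Not at hcon
  choose f hf1 hf2 using hcon
  have h1 : (univ : Finset (Fin k)).card ≤ S.card :=
    card_le_card_of_injOn f (fun j _ => hf1 j)
      (fun j _ j' _ h => hdis j j' (f j) (hf2 j) (by rw [h]; exact hf2 j'))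
  rw [card_univ, Fintype.card_fin] at h1
  omega

include hq in
lemma to_hub (S : Finset (TV B (q+1) (Nn q (t+1)) r)) (hS : S.card < q + 1)
    (u : TV B (q+1) (Nn q (t+1)) r) :
    ∃ j, hb B q t r hr j ∉ S ∧ R (T B q t r) S (2*t+2) u (hb B q t r hr j) := by
  rcases u with ⟨b, i, v⟩ | h
  · obtain ⟨j, hj⟩ := pigeon S (q+1) hS (fun j x => Rt B q t r b i v j x)
      (fun j j' x h h' => Rt_disj B q t r hq b i v j j' x h h')
    have hjS : hb B q t r hr j ∉ S := fun h => hj _ h rfl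
    refine ⟨j, hjS, ?_⟩
    by_cases hji : j = i
    · subst hji
      refine R_mono _ S (by omega : t + 1 ≤ 2 * t + 2) (up B q t r hq hr S b j hjS t v v.2 ?_)
      intro w hw hwS
      exact hj _ hwS ⟨rfl, Or.inl ⟨rfl, rfl, hw⟩⟩
    · have hcol : ∀ w : Fin (Nn q (t+1)), (Sum.inl (b, j, w) : TV _ _ _ _) ∉ S := fun w hwS =>
        hj _ hwS ⟨rfl, Or.inr (Or.inl ⟨rfl, hji⟩)⟩
      have hup : ∀ y : Fin (Nn q (t+1)),
          R (T B q t r) S (t+1) (Sum.inl (b, j, y)) (hb B q t r hr j) := fun y =>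
        up B q t r hq hr S b j hjS t y y.2 (fun w _ => hcol w)
      have hcross : ∀ y : Fin (Nn q (t+1)), Nn q t ≤ y.1 →
          R (T B q t r) S 1 (Sum.inl (b, i, y)) (Sum.inl (b, j, y)) := fun y hy =>
        R_one _ S _ _ (show (T B q t r).Adj _ _ from
          ⟨rfl, Or.inr ⟨fun h => hji h.symm, rfl, hy⟩⟩) (hcol y)
      by_cases hleaf : Nn q t ≤ v.1
      · exact R_mono _ S (by omega : 1 + (t+1) ≤ 2*t+2)
          (R_trans _ S _ _ _ _ _ (hcross v hleaf) (hup v))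
      · push Not at hleaf
        -- the depth of `v`
        obtain ⟨s, hs1, hs2, hs3⟩ : ∃ s, s < t ∧ Nn q s ≤ v.1 ∧ v.1 < Nn q (s+1) := by
          have hex : ∃ s, v.1 < Nn q (s+1) := ⟨t, v.2⟩
          refine ⟨Nat.find hex, ?_, ?_, Nat.find_spec hex⟩
          · rcases Nat.eq_zero_or_pos t with h0 | h0
            · subst h0
              simp [Nn] at hleaf
            · have : Nat.find hex ≤ t - 1 := Nat.find_min' hex (by
                rw [Nat.sub_add_cancel h0]; exact hleaf)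
              omega
          · rcases Nat.eq_zero_or_pos (Nat.find hex) with h0 | h0
            · rw [h0]; simp [Nn]
            · have := Nat.find_min hex (Nat.sub_lt h0 Nat.one_pos)
              rw [Nat.sub_add_cancel h0] at this
              omega
        have hc := cc_bd q i.1 v.1 j.1 i.2 j.2 (fun h => hji (Fin.ext h))
        have e1 : Nn q (s+1) = q * Nn q s + 1 := rfl
        have e2 : Nn q (s+1+1) = q * Nn q (s+1) + 1 := rfl
        have hc1 : Nn q (s+1) ≤ cc q i.1 v.1 j.1 := by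
          have := Nat.mul_le_mul_left q hs2
          omega
        have hc2 : cc q i.1 v.1 j.1 < Nn q (s+1+1) := by
          have := Nat.mul_le_mul_left q (Nat.succ_le_of_lt hs3)
          rw [Nat.mul_succ] at this
          omega
        have hmono : ∀ c d : ℕ, c ≤ d → Nn q c ≤ Nn q d := by
          intro c d hcd
          induction hcd with
          | refl => exact le_rfl
          | step _ ih =>
            refine ih.trans ?_
            have := Nat.mul_le_mul_right (Nn q (by assumption)) hq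
            simp only [Nn]
            omega
        let c : Fin (Nn q (t+1)) := ⟨cc q i.1 v.1 j.1, lt_of_lt_of_le hc2 (hmono _ _ (by omega))⟩
        have hchain : ∀ w : Fin (Nn q (t+1)), (∃ m', w.1 = (DD q)^[m'] c.1) →
            (Sum.inl (b, i, w) : TV _ _ _ _) ∉ S := by
          rintro w ⟨m', hm'⟩ hwS
          exact hj _ hwS ⟨rfl, Or.inr (Or.inr ⟨rfl, hji, m', hm'⟩)⟩
        obtain ⟨y, hy1, hy2⟩ := down B q t r hq S b i (t - s - 1) (s+1) (by omega) c hc1 hc2 hchain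
        have hadj : (T B q t r).Adj (Sum.inl (b, i, v)) (Sum.inl (b, i, c)) := by
          refine ⟨rfl, Or.inl ⟨rfl, Or.inl ⟨?_, ?_⟩⟩⟩
          · show cc q i.1 v.1 j.1 ≠ 0
            omega
          · show v.1 = (cc q i.1 v.1 j.1 - 1) / q
            have h8 : cc q i.1 v.1 j.1 - 1 = (cc q i.1 v.1 j.1 - 1 - q * v.1) + q * v.1 := by omega
            rw [h8, Nat.add_mul_div_left _ _ hq, Nat.div_eq_of_lt (by omega), Nat.zero_add]
        have r1 := R_one (T B q t r) S _ _ hadj (hchain c ⟨0, rfl⟩)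
        have r2 := R_trans _ S _ _ _ _ _ r1 hy2
        have r3 := R_trans _ S _ _ _ _ _ r2 (hcross y hy1)
        have r4 := R_trans _ S _ _ _ _ _ r3 (hup y)
        exact R_mono _ S (by omega) r4
  · obtain ⟨j, hj⟩ := pigeon S (q+1) hS (fun j x => x = hb B q t r hr j) (by
      intro j j' x h1 h2
      rw [h1] at h2
      simp only [hb, Sum.inr.injEq, Fin.mk.injEq] at h2
      exact Fin.ext h2)
    have hjS : hb B q t r hr j ∉ S := fun h => hj _ h rfl
    refine ⟨j, hjS, R_mono _ S (by omega : 1 ≤ 2*t+2) ?_⟩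
    by_cases he : (Sum.inr h : TV B (q+1) (Nn q (t+1)) r) = hb B q t r hr j
    · exact Or.inl he
    · refine R_one _ S _ _ (show (T B q t r).Adj _ _ from ⟨?_, Or.inr j.2⟩) hjS
      intro h'
      exact he (by rw [h']; rfl)

include hq hr in
lemma tree_R (S : Finset (TV B (q+1) (Nn q (t+1)) r)) (hS : S.card < q + 1)
    (u v : TV B (q+1) (Nn q (t+1)) r) (_hu : u ∉ S) (hv : v ∉ S) :
    R (T B q t r) S (4*t+5) u v := by
  obtain ⟨j, hj, h1⟩ := to_hub B q t r hq hr S hS u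
  obtain ⟨j', hj', h2⟩ := to_hub B q t r hq hr S hS v
  have h3 := R_symm _ S _ _ _ hv h2
  have h4 : R (T B q t r) S 1 (hb B q t r hr j) (hb B q t r hr j') := by
    by_cases he : j = j'
    · exact Or.inl (by rw [he])
    · refine R_one _ S _ _ (show (T B q t r).Adj _ _ from ⟨?_, Or.inl j.2⟩) hj'
      intro h
      simp only [Fin.mk.injEq] at h
      exact he (Fin.ext h)
  have h5 := R_trans _ S _ _ _ _ _ (R_trans _ S _ _ _ _ _ h1 h4) h3
  exact R_mono _ S (by omega) h5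

end Tree

end X146FD
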