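import Pool.Agent.X146.FD.Tree

open Finset Classical

namespace X146FD

lemma ds_comap {V W : Type*} [Fintype V] [Fintype W] (G : SimpleGraph V) (e : W ≃ V) :
    ds (G.comap e) = ds G := by
  unfold ds
  rw [← Equiv.sum_comp e (fun v => (nb G v).card)]
  refine sum_congr rfl fun w _ => ?_
  refine card_bij (fun x _ => e x) ?_ ?_ ?_
  · intro x hx
    rw [mem_nb] at hx ⊢
    exact hx
  · intro x _ y _ h
    exact e.injective h
  · intro y hy
    rw [mem_nb] at hy
    refine ⟨e.symm y, ?_, by simp⟩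
    rw [mem_nb]
    show G.Adj (e w) (e (e.symm y))
    rwa [Equiv.apply_symm_apply]

lemma tol_of_R {V : Type*} (G : SimpleGraph V) {n : ℕ} (e : Fin n ≃ V) (d k : ℕ) (hk : 1 ≤ k)
    (h : ∀ S : Finset V, S.card < k → ∀ u v, u ∉ S → v ∉ S → R G S d u v) :
    Tolerant n d k (G.comap e) := by
  intro S hS
  refine SimpleGraph.ediam_le_of_edist_le fun u v => ?_
  obtain ⟨u, hu⟩ := u
  obtain ⟨v, hv⟩ := v
  refine edist_of_R _ S d u v hu hv (R_comap _ e S _ u v ?_)
  refine h _ ?_ _ _ ?_ ?_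
  · refine lt_of_le_of_lt card_image_le ?_
    omega
  · intro h
    obtain ⟨x, hx, hx2⟩ := mem_image.1 h
    exact hu (e.injective hx2 ▸ hx)
  · intro h
    obtain ⟨x, hx, hx2⟩ := mem_image.1 h
    exact hv (e.injective hx2 ▸ hx)

/-- up-neighbours of the block vertex `(b,i,v)` -/
def IsA (B k N r q : ℕ) (b : Fin B) (i : Fin k) (v : Fin N) : TV B k N r → Prop
  | Sum.inl (b0, i0, w) => b0 = b ∧ i0 = i ∧ P q w.1 v.1
  | Sum.inr _ => True

def gg (B k N r q i : ℕ) : TV B k N r → ℕ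
  | Sum.inl (_, i0, w) => if i0.1 = i then (w.1 - 1) % q else (if i0.1 < i then i0.1 else i0.1 - 1)
  | Sum.inr _ => 0

lemma deg_inl (B q t r : ℕ) (hq : 1 ≤ q) (b : Fin B) (i : Fin (q+1)) (v : Fin (Nn q (t+1))) :
    (nb (T B q t r) (Sum.inl (b, i, v))).card ≤ q + 1 := by
  have e1 : Nn q (t+1) = q * Nn q t + 1 := rfl
  have hsplit := card_filter_add_card_filter_not (s := nb (T B q t r) (Sum.inl (b, i, v)))
    (fun x => IsA B (q+1) (Nn q (t+1)) r q b i v x)
  have hA : ((nb (T B q t r) (Sum.inl (b, i, v))).filter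
      (fun x => IsA B (q+1) (Nn q (t+1)) r q b i v x)).card ≤ 1 := by
    rw [card_le_one]
    intro x hx y hy
    rw [mem_filter, mem_nb] at hx hy
    obtain ⟨hx1, hx2⟩ := hx
    obtain ⟨hy1, hy2⟩ := hy
    rcases x with ⟨b0, i0, w⟩ | x <;> rcases y with ⟨b1, i1, w1⟩ | y
    · obtain ⟨h1, h2, h3, h4⟩ := hx2
      obtain ⟨h5, h6, h7, h8⟩ := hy2
      have : w = w1 := Fin.ext (h4.trans h8.symm)
      rw [h1, h2, h5, h6, this]
    · exact absurd hy1.1 hx2.2.2.1
    · exact absurd hx1.1 hy2.2.2.1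
    · have h1 : x.1 = i.1 := hx1.2
      have h2 : y.1 = i.1 := hy1.2
      rw [Fin.ext (h1.trans h2.symm)]
  have hB : ((nb (T B q t r) (Sum.inl (b, i, v))).filter
      (fun x => ¬ IsA B (q+1) (Nn q (t+1)) r q b i v x)).card ≤ (range q).card := by
    have key : ∀ x ∈ ((nb (T B q t r) (Sum.inl (b, i, v))).filter
        (fun x => ¬ IsA B (q+1) (Nn q (t+1)) r q b i v x)),
        (∃ w : Fin (Nn q (t+1)), x = Sum.inl (b, i, w) ∧ w.1 ≠ 0 ∧ v.1 = (w.1 - 1) / q ∧
          v.1 < Nn q t) ∨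
        (∃ j : Fin (q+1), j ≠ i ∧ x = Sum.inl (b, j, v) ∧ Nn q t ≤ v.1) := by
      intro x hx
      rw [mem_filter, mem_nb] at hx
      obtain ⟨hx1, hx2⟩ := hx
      rcases x with ⟨b0, i0, w⟩ | x
      · obtain ⟨h1, h2⟩ := hx1
        rcases h2 with ⟨h2, h3 | h3⟩ | ⟨h2, h3, h4⟩
        · left
          refine ⟨w, by rw [h1, h2], h3.1, h3.2, ?_⟩
          rw [h3.2]
          apply Nat.div_lt_of_lt_mul
          have := w.2
          have := h3.1
          omega
        · exact absurd ⟨h1.symm, h2.symm, h3⟩ hx2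
        · right
          exact ⟨i0, fun h => h2 h.symm, by rw [h1, h3], h4⟩
      · exact absurd trivial hx2
    refine card_le_card_of_injOn (gg B (q+1) (Nn q (t+1)) r q i.1) ?_ ?_
    · intro x hx
      rw [mem_coe] at hx
      rw [coe_range, Set.mem_Iio]
      rcases key x hx with ⟨w, rfl, h1, h2, h3⟩ | ⟨j, h1, rfl, h2⟩
      · simp only [gg, if_true]
        exact Nat.mod_lt _ hq
      · have h3 : j.1 ≠ i.1 := fun h => h1 (Fin.ext h)
        simp only [gg, if_neg h3]
        have := i.2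
        have := j.2
        split_ifs <;> omega
    · intro x hx y hy h
      rw [mem_coe] at hx hy
      rcases key x hx with ⟨w, rfl, h1, h2, h3⟩ | ⟨j, h1, rfl, h2⟩ <;>
        rcases key y hy with ⟨w', rfl, h1', h2', h3'⟩ | ⟨j', h1', rfl, h2'⟩
      · simp only [gg, if_true] at h
        have d1 := Nat.div_add_mod (w.1 - 1) q
        have d2 := Nat.div_add_mod (w'.1 - 1) q
        rw [← h2] at d1
        rw [← h2'] at d2
        have : w = w' := by
          apply Fin.ext
          rw [h] at d1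
          omega
        rw [this]
      · omega
      · omega
      · have h3 : j.1 ≠ i.1 := fun h => h1 (Fin.ext h)
        have h4 : j'.1 ≠ i.1 := fun h => h1' (Fin.ext h)
        simp only [gg, if_neg h3, if_neg h4] at h
        have : j = j' := by
          apply Fin.ext
          split_ifs at h <;> omega
        rw [this]
  rw [card_range] at hB
  omega

def gh (B k N r : ℕ) : TV B k N r → Fin B ⊕ Fin r
  | Sum.inl (b0, _, _) => Sum.inl b0
  | Sum.inr h => Sum.inr h

def gi (B k N r : ℕ) : TV B k N r → ℕ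
  | Sum.inl _ => 0
  | Sum.inr h => h.1

lemma deg_inr (B q t r : ℕ) (h : Fin r) :
    (nb (T B q t r) (Sum.inr h)).card ≤ (q + 1) + if h.1 < q + 1 then B + r else 0 := by
  by_cases hh : h.1 < q + 1
  · rw [if_pos hh]
    have : (nb (T B q t r) (Sum.inr h)).card ≤ (univ : Finset (Fin B ⊕ Fin r)).card := by
      refine card_le_card_of_injOn (gh B (q+1) (Nn q (t+1)) r) (fun _ _ => mem_univ _) ?_
      intro x hx y hy hxy
      rw [mem_coe, mem_nb] at hx hy
      rcases x with ⟨b0, i0, w⟩ | x <;> rcases y with ⟨b1, i1, w1⟩ | y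
      · simp only [gh, Sum.inl.injEq] at hxy
        have h1 : w.1 = 0 := hx.1
        have h2 : h.1 = i0.1 := hx.2
        have h3 : w1.1 = 0 := hy.1
        have h4 : h.1 = i1.1 := hy.2
        have e1 : w = w1 := Fin.ext (h1.trans h3.symm)
        have e2 : i0 = i1 := Fin.ext (h2.symm.trans h4)
        rw [hxy, e1, e2]
      · simp [gh] at hxy
      · simp [gh] at hxy
      · simp only [gh, Sum.inr.injEq] at hxy
        rw [hxy]
    rw [card_univ, Fintype.card_sum, Fintype.card_fin, Fintype.card_fin] at this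
    omega
  · rw [if_neg hh]
    show (nb (T B q t r) (Sum.inr h)).card ≤ q + 1
    have : (nb (T B q t r) (Sum.inr h)).card ≤ (range (q+1)).card := by
      have key : ∀ x ∈ nb (T B q t r) (Sum.inr h), ∃ h' : Fin r, x = Sum.inr h' ∧ h'.1 < q + 1 := by
        intro x hx
        rw [mem_nb] at hx
        rcases x with ⟨b0, i0, w⟩ | x
        · exfalso
          have h2 : h.1 = i0.1 := hx.2
          have := i0.2
          omega
        · exact ⟨x, rfl, hx.2.resolve_left hh⟩
      refine card_le_card_of_injOn (gi B (q+1) (Nn q (t+1)) r) ?_ ?_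
      · intro x hx
        rw [mem_coe] at hx
        obtain ⟨h', rfl, h1⟩ := key x hx
        rw [coe_range, Set.mem_Iio]
        exact h1
      · intro x hx y hy hxy
        rw [mem_coe] at hx hy
        obtain ⟨h', rfl, h1⟩ := key x hx
        obtain ⟨h'', rfl, h2⟩ := key y hy
        simp only [gi] at hxy
        rw [Fin.ext hxy]
    rwa [card_range] at this

lemma ds_tree (B q t r : ℕ) (hq : 1 ≤ q) :
    ds (T B q t r) ≤ (q+1) * (B * ((q+1) * Nn q (t+1))) + (q+1) * r + (q+1) * (B + r) := by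
  unfold ds
  rw [Fintype.sum_sum_type]
  have h1 : ∑ x : Fin B × Fin (q+1) × Fin (Nn q (t+1)), (nb (T B q t r) (Sum.inl x)).card ≤
      (q+1) * (B * ((q+1) * Nn q (t+1))) := by
    calc _ ≤ ∑ _x : Fin B × Fin (q+1) × Fin (Nn q (t+1)), (q+1) :=
          sum_le_sum fun x _ => deg_inl B q t r hq x.1 x.2.1 x.2.2
      _ = _ := by
        simp only [sum_const, card_univ, Fintype.card_prod, Fintype.card_fin, smul_eq_mul]
        ring
  have h2 : ∑ h : Fin r, (nb (T B q t r) (Sum.inr h)).card ≤ (q+1) * r + (q+1) * (B + r) := by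
    refine (sum_le_sum fun h _ => deg_inr B q t r h).trans ?_
    rw [sum_add_distrib, ← sum_filter]
    simp only [sum_const, card_univ, Fintype.card_fin, smul_eq_mul]
    have := Nat.mul_le_mul_right (B + r) (card_lt_le r (q+1))
    have h3 : r * (q+1) = (q+1) * r := Nat.mul_comm _ _
    omega
  omega

lemma tree_fhat (n B q t r d : ℕ) (hq : 1 ≤ q) (hr : q + 1 ≤ r) (hd : 4 * t + 5 ≤ d)
    (hn : n = B * ((q+1) * Nn q (t+1)) + r) :
    2 * fhat n d (q+1) ≤ (q+1) * n + (q+1) * (B + r) := by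
  have hcard : Fintype.card (TV B (q+1) (Nn q (t+1)) r) = n := by
    rw [hn]
    simp [Fintype.card_sum, Fintype.card_prod]
  let e : Fin n ≃ TV B (q+1) (Nn q (t+1)) r := (Fintype.equivFinOfCardEq hcard).symm
  have htol : Tolerant n (4*t+5) (q+1) ((T B q t r).comap e) :=
    tol_of_R (T B q t r) e (4*t+5) (q+1) (Nat.succ_pos q)
      (fun S hS u v hu hv => tree_R B q t r hq hr S hS u v hu hv)
  have h1 := (fhat_spec (tol_mono hd htol)).2
  have h2 := ds_eq ((T B q t r).comap e)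
  rw [ds_comap] at h2
  have h3 := ds_tree B q t r hq
  have h4 : (q+1) * n = (q+1) * (B * ((q+1) * Nn q (t+1))) + (q+1) * r := by
    rw [hn, Nat.mul_add]
  omega

lemma Nn_pos (q s : ℕ) : 0 < Nn q (s+1) := Nat.succ_pos _

lemma Nn_eq (q s : ℕ) : Nn q s = ∑ i ∈ range s, q^i := by
  induction s with
  | zero => simp [Nn]
  | succ s ih =>
    rw [sum_range_succ']
    simp only [Nn, ih, mul_sum, pow_succ, pow_zero]
    congr 1
    exact sum_congr rfl fun i _ => Nat.mul_comm _ _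

lemma phi_tree (n d q t : ℕ) (hq : 1 ≤ q) (hd : 4 * t + 5 ≤ d) (hn : q + 1 ≤ n) :
    phi n d (q+1) ≤ (n : ℝ) / (2 * (Nn q (t+1) : ℝ)) +
      ((q:ℝ) + 1)^2 * ((Nn q (t+1) : ℝ) + 1) / 2 := by
  have hN := Nn_pos q t
  set N := Nn q (t+1) with hNdef
  have hM : 0 < (q+1) * N := Nat.mul_pos (Nat.succ_pos _) hN
  set B := (n - (q+1)) / ((q+1) * N) with hB
  have hB1 : B * ((q+1) * N) ≤ n - (q+1) := Nat.div_mul_le_self _ _
  have hB2 : n - (q+1) < B * ((q+1) * N) + (q+1) * N := by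
    have h1 := Nat.div_add_mod (n - (q+1)) ((q+1) * N)
    have h2 := Nat.mod_lt (n - (q+1)) hM
    rw [← hB, Nat.mul_comm] at h1
    omega
  obtain ⟨r, hr⟩ : ∃ r, n = B * ((q+1) * N) + r := ⟨n - B * ((q+1) * N), by omega⟩
  have hr1 : q + 1 ≤ r := by omega
  have hr2 : r ≤ (q+1) * N + (q+1) := by omega
  have h1 := tree_fhat n B q t r d hq hr1 hd hr
  have hNR : (0:ℝ) < N := by exact_mod_cast hN
  have h1' : (2:ℝ) * fhat n d (q+1) ≤ ((q:ℝ)+1) * n + ((q:ℝ)+1) * (B + r) := by
    exact_mod_cast h1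
  have h2' : (B:ℝ) * (((q:ℝ)+1) * N) ≤ n := by
    have : B * ((q+1) * N) ≤ n := by omega
    exact_mod_cast this
  have h3' : (r:ℝ) ≤ ((q:ℝ)+1) * N + ((q:ℝ)+1) := by exact_mod_cast hr2
  have h4 : ((q:ℝ)+1) * B ≤ n / N := by
    rw [le_div_iff₀ hNR]
    linarith
  have h5 : ((q:ℝ)+1) * r ≤ ((q:ℝ)+1) * (((q:ℝ)+1) * N + ((q:ℝ)+1)) :=
    mul_le_mul_of_nonneg_left h3' (by positivity)
  unfold phi
  have h6 : (n:ℝ) / (2 * N) = (n / N) / 2 := by
    rw [div_div, mul_comm]
  rw [h6]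
  push_cast
  nlinarith

end X146FD
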