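import Pool.Agent.X146.FD.Count
import Pool.Agent.X146.FD.Defs

open Finset Classical

namespace X146FD

/-- Complete split graph: `k` hubs joined to everything. -/
def G3 (n k : ℕ) : SimpleGraph (Fin n) where
  Adj u v := u ≠ v ∧ (u.1 < k ∨ v.1 < k)
  symm := ⟨fun u v h => ⟨h.1.symm, h.2.symm⟩⟩
  loopless := ⟨fun u h => h.1 rfl⟩

/-- Cliques of size `k`, the `i`-th vertex of each joined to the `i`-th hub. -/
def G4 (n k : ℕ) : SimpleGraph (Fin n) where
  Adj u v := u ≠ v ∧ (u.1 / k = v.1 / k ∨ (u.1 < k ∧ (v.1 % k = u.1 ∨ n / k * k ≤ v.1)) ∨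
    (v.1 < k ∧ (u.1 % k = v.1 ∨ n / k * k ≤ u.1)))
  symm := ⟨by
    rintro u v ⟨h1, h2⟩
    refine ⟨h1.symm, ?_⟩
    rcases h2 with h2 | h2 | h2
    · exact Or.inl h2.symm
    · exact Or.inr (Or.inr h2)
    · exact Or.inr (Or.inl h2)⟩
  loopless := ⟨fun u h => h.1 rfl⟩

lemma step {n : ℕ} (G : SimpleGraph (Fin n)) (S : Finset (Fin n)) (a b : {x : Fin n | x ∉ S})
    (h : a.1 ≠ b.1 → G.Adj a.1 b.1) : (G.induce {x : Fin n | x ∉ S}).edist a b ≤ 1 := by
  by_cases hab : a.1 = b.1
  · have : a = b := Subtype.ext hab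
    subst this
    simp
  · have h1 : (G.induce {x : Fin n | x ∉ S}).Adj a b := h hab
    exact (SimpleGraph.edist_le h1.toWalk)

lemma exists_res {n k : ℕ} (hk : 1 ≤ k) (S : Finset (Fin n)) (hS : S.card = k - 1) :
    ∃ j < k, ∀ s ∈ S, s.1 % k ≠ j := by
  by_contra hcon
  push Not at hcon
  have h1 : range k ⊆ S.image (fun s => s.1 % k) := by
    intro j hj
    obtain ⟨s, hs, hsj⟩ := hcon j (mem_range.1 hj)
    exact mem_image.2 ⟨s, hs, hsj⟩
  have h2 := (card_le_card h1).trans card_image_le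
  rw [card_range] at h2
  omega

lemma tol3 {n k : ℕ} (hk : 1 ≤ k) (hn : k ≤ n) : Tolerant n 3 k (G3 n k) := by
  intro S hS
  obtain ⟨j, hj, hjS⟩ := exists_res hk S hS
  have hjn : j < n := by omega
  have hj' : (⟨j, hjn⟩ : Fin n) ∉ S := fun h => hjS _ h (Nat.mod_eq_of_lt hj)
  refine SimpleGraph.ediam_le_of_edist_le fun u v => ?_
  refine (SimpleGraph.edist_triangle (v := (⟨⟨j, hjn⟩, hj'⟩ : {x : Fin n | x ∉ S}))).trans ?_
  have h1 := step (G3 n k) S u ⟨⟨j, hjn⟩, hj'⟩ (fun h => ⟨h, Or.inr hj⟩)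
  have h2 := step (G3 n k) S ⟨⟨j, hjn⟩, hj'⟩ v (fun h => ⟨h, Or.inl hj⟩)
  refine (add_le_add h1 h2).trans ?_
  norm_num

lemma tol4 {n k : ℕ} (hk : 1 ≤ k) (hn : k ≤ n) : Tolerant n 4 k (G4 n k) := by
  intro S hS
  obtain ⟨j, hj, hjS⟩ := exists_res hk S hS
  have hjn : j < n := by omega
  have hj' : (⟨j, hjn⟩ : Fin n) ∉ S := fun h => hjS _ h (Nat.mod_eq_of_lt hj)
  have key : ∀ u : {x : Fin n | x ∉ S},
      (((G4 n k).induce {x : Fin n | x ∉ S})).edist u ⟨⟨j, hjn⟩, hj'⟩ ≤ 2 := by
    intro u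
    by_cases hu : n / k * k ≤ u.1.1
    · refine (step (G4 n k) S u ⟨⟨j, hjn⟩, hj'⟩
        (fun h => ⟨h, Or.inr (Or.inr ⟨hj, Or.inr hu⟩)⟩)).trans (by norm_num)
    · push Not at hu
      have h1 : u.1.1 / k < n / k := (Nat.div_lt_iff_lt_mul hk).2 hu
      have h2 : (u.1.1 / k + 1) * k ≤ n / k * k := Nat.mul_le_mul_right _ h1
      have h3 : n / k * k ≤ n := Nat.div_mul_le_self n k
      have h4 : (u.1.1 / k) * k + j < n := by
        have : (u.1.1 / k + 1) * k = u.1.1 / k * k + k := by ring
        omega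
      have h5 : ((u.1.1 / k) * k + j) % k = j := by
        rw [Nat.mul_comm, Nat.mul_add_mod, Nat.mod_eq_of_lt hj]
      have h6 : ((u.1.1 / k) * k + j) / k = u.1.1 / k := by
        rw [Nat.mul_comm, Nat.mul_add_div hk, Nat.div_eq_of_lt hj, Nat.add_zero]
      have h7 : (⟨(u.1.1 / k) * k + j, h4⟩ : Fin n) ∉ S := fun h => hjS _ h h5
      refine (SimpleGraph.edist_triangle
        (v := (⟨⟨(u.1.1 / k) * k + j, h4⟩, h7⟩ : {x : Fin n | x ∉ S}))).trans ?_
      have e1 := step (G4 n k) S u ⟨⟨(u.1.1 / k) * k + j, h4⟩, h7⟩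
        (fun h => ⟨h, Or.inl h6.symm⟩)
      have e2 := step (G4 n k) S ⟨⟨(u.1.1 / k) * k + j, h4⟩, h7⟩ ⟨⟨j, hjn⟩, hj'⟩
        (fun h => ⟨h, Or.inr (Or.inr ⟨hj, Or.inl h5⟩)⟩)
      refine (add_le_add e1 e2).trans ?_
      norm_num
  refine SimpleGraph.ediam_le_of_edist_le fun u v => ?_
  refine (SimpleGraph.edist_triangle (v := (⟨⟨j, hjn⟩, hj'⟩ : {x : Fin n | x ∉ S}))).trans ?_
  have h1 := key u
  have h2 := key v
  rw [SimpleGraph.edist_comm] at h2
  refine (add_le_add h1 h2).trans ?_
  norm_num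

lemma card_lt_le (n k : ℕ) : (univ.filter (fun u : Fin n => u.1 < k)).card ≤ k := by
  have : (univ.filter (fun u : Fin n => u.1 < k)).card ≤ (range k).card := by
    refine card_le_card_of_injOn (fun u => u.1) ?_ ?_
    · intro u hu
      simp only [coe_filter, mem_univ, true_and, Set.mem_setOf_eq] at hu
      simpa using hu
    · intro a _ b _ h
      exact Fin.ext h
  simpa using this

lemma ds3 (n k : ℕ) : ds (G3 n k) ≤ 2 * k * n := by
  unfold ds
  have h : ∀ v : Fin n, (nb (G3 n k) v).card ≤ k + if v.1 < k then n else 0 := by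
    intro v
    by_cases hv : v.1 < k
    · rw [if_pos hv]
      have := card_le_univ (nb (G3 n k) v)
      rw [Fintype.card_fin] at this
      omega
    · rw [if_neg hv, Nat.add_zero]
      refine (card_le_card ?_).trans (card_lt_le n k)
      intro u hu
      rw [mem_nb] at hu
      rw [mem_filter]
      exact ⟨mem_univ _, hu.2.resolve_left hv⟩
  refine (sum_le_sum fun v _ => h v).trans ?_
  rw [sum_add_distrib, ← sum_filter]
  simp only [sum_const, card_univ, Fintype.card_fin, smul_eq_mul]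
  have := Nat.mul_le_mul_right n (card_lt_le n k)
  nlinarith

/-- The hub-relation in `G4`. -/
def q (n k : ℕ) (v u : Fin n) : Prop := u.1 < k ∧ (v.1 % k = u.1 ∨ n / k * k ≤ v.1)

lemma q_sum (n k : ℕ) (hk : 1 ≤ k) :
    ∑ v : Fin n, (univ.filter (fun u : Fin n => q n k v u)).card ≤ n + k * k := by
  have h : ∀ v : Fin n, (univ.filter (fun u : Fin n => q n k v u)).card ≤
      1 + if n / k * k ≤ v.1 then k else 0 := by
    intro v
    by_cases hv : n / k * k ≤ v.1
    · rw [if_pos hv]
      have h1 : (univ.filter (fun u : Fin n => q n k v u)).card ≤ k := by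
        refine (card_le_card ?_).trans (card_lt_le n k)
        intro u hu
        rw [mem_filter] at hu ⊢
        exact ⟨mem_univ _, hu.2.1⟩
      omega
    · rw [if_neg hv, Nat.add_zero]
      rw [card_le_one]
      intro a ha b hb
      rw [mem_filter] at ha hb
      have h1 := ha.2.2.resolve_right hv
      have h2 := hb.2.2.resolve_right hv
      exact Fin.ext (h1.symm.trans h2)
  refine (sum_le_sum fun v _ => h v).trans ?_
  rw [sum_add_distrib, ← sum_filter]
  simp only [sum_const, card_univ, Fintype.card_fin, smul_eq_mul, mul_one]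
  have h2 : (univ.filter (fun v : Fin n => n / k * k ≤ v.1)).card ≤ (range k).card := by
    refine card_le_card_of_injOn (fun u => u.1 - n / k * k) ?_ ?_
    · intro u hu
      simp only [coe_filter, mem_univ, true_and, Set.mem_setOf_eq] at hu
      have h3 := Nat.div_add_mod n k
      have h4 := Nat.mod_lt n hk
      have h5 := u.2
      rw [Nat.mul_comm] at h3
      simp only [coe_range, Set.mem_Iio]
      omega
    · intro a ha b hb h
      simp only [coe_filter, mem_univ, true_and, Set.mem_setOf_eq] at ha hb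
      apply Fin.ext
      simp only at h
      omega
  rw [card_range] at h2
  have := Nat.mul_le_mul_right k h2
  omega

lemma ds4 (n k : ℕ) (hk : 1 ≤ k) : ds (G4 n k) ≤ (k + 1) * n + 2 * (k * k) := by
  unfold ds
  have h : ∀ v : Fin n, (nb (G4 n k) v).card ≤ (k - 1) +
      (univ.filter (fun u : Fin n => q n k v u)).card +
      (univ.filter (fun u : Fin n => q n k u v)).card := by
    intro v
    have h1 : ((univ.filter (fun u : Fin n => u.1 / k = v.1 / k)).erase v).card ≤ k - 1 := by
      rw [card_erase_of_mem (by simp)]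
      refine Nat.sub_le_sub_right ?_ 1
      have : (univ.filter (fun u : Fin n => u.1 / k = v.1 / k)).card ≤ (range k).card := by
        refine card_le_card_of_injOn (fun u => u.1 % k) ?_ ?_
        · intro u hu
          simp only [coe_range, Set.mem_Iio]
          exact Nat.mod_lt _ hk
        · intro a ha b hb h
          simp only [coe_filter, mem_univ, true_and, Set.mem_setOf_eq] at ha hb
          apply Fin.ext
          have h3 := Nat.div_add_mod a.1 k
          have h4 := Nat.div_add_mod b.1 k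
          simp only at h
          rw [← h3, ← h4, ha, hb, h]
      simpa using this
    have h2 : nb (G4 n k) v ⊆ ((univ.filter (fun u : Fin n => u.1 / k = v.1 / k)).erase v) ∪
        (univ.filter (fun u : Fin n => q n k v u)) ∪ (univ.filter (fun u : Fin n => q n k u v)) := by
      intro u hu
      rw [mem_nb] at hu
      obtain ⟨hne, hu⟩ := hu
      rcases hu with hu | hu | hu
      · exact mem_union_left _ (mem_union_left _ (mem_erase.2 ⟨hne.symm, by simp [hu]⟩))
      · exact mem_union_right _ (mem_filter.2 ⟨mem_univ _, hu⟩)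
      · exact mem_union_left _ (mem_union_right _ (mem_filter.2 ⟨mem_univ _, hu⟩))
    refine (card_le_card h2).trans ?_
    refine (card_union_le _ _).trans ?_
    have h3 := card_union_le ((univ.filter (fun u : Fin n => u.1 / k = v.1 / k)).erase v)
      (univ.filter (fun u : Fin n => q n k v u))
    omega
  refine (sum_le_sum fun v _ => h v).trans ?_
  rw [sum_add_distrib, sum_add_distrib]
  have h5 : ∑ v : Fin n, (univ.filter (fun u : Fin n => q n k u v)).card =
      ∑ v : Fin n, (univ.filter (fun u : Fin n => q n k v u)).card := by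
    simp_rw [card_filter]
    rw [sum_comm]
  rw [h5]
  have h6 := q_sum n k hk
  simp only [sum_const, card_univ, Fintype.card_fin, smul_eq_mul]
  obtain ⟨m, rfl⟩ : ∃ m, k = m + 1 := ⟨k - 1, by omega⟩
  simp only [Nat.add_sub_cancel]
  nlinarith

end X146FD
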